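import Pool.Agent.N782.GN.StmV
import Pool.Agent.Y333.VK.ZfA
import Pool.Agent.H304R3.HK.LgB
import Pool.Agent.H304R3.HK.LamH
import Pool.Agent.H304R3.HK.PairH
import Pool.Agent.H304R3.HK.LogDerH

/-!
Project GN (helper782), leaf INVL: local lemmas, the 3-4-1 inequality over `ℤ[i]`, bound for the inverse to
the right of one (helper487).
-/

set_option autoImplicit false

open Complex Filter Topology Set MeasureTheory Metric

namespace Pool.Agent.N487.GN

open Pool.Agent.H304R3.HK Pool.Agent.H304R3.HK.LogDerH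

/-- real parts of sums over zeros -/
lemma sum_re {c : ℂ} (hc : 1 < c.re) (m : Multiset ℂ) (h : ∀ ρ ∈ m, ρ.re ≤ 1) :
    0 ≤ ((m.map (fun ρ => 1 / (c - ρ))).sum).re ∧
      ∀ ρ ∈ m, (1 / (c - ρ)).re ≤ ((m.map (fun ρ => 1 / (c - ρ))).sum).re := by
  revert h
  induction m using Multiset.induction_on with
  | empty => intro _; simp
  | cons a m ih =>
    intro h
    have ha := h a (Multiset.mem_cons_self a m)
    obtain ⟨i1, i2⟩ := ih fun ρ hρ => h ρ (Multiset.mem_cons_of_mem hρ)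
    have ha2 : 0 ≤ (1 / (c - a)).re := by
      rw [one_div, Complex.inv_re]
      apply div_nonneg _ (Complex.normSq_nonneg _)
      simp only [sub_re]
      linarith
    rw [Multiset.map_cons, Multiset.sum_cons, add_re]
    refine ⟨by linarith, fun ρ hρ => ?_⟩
    rw [Multiset.mem_cons] at hρ
    rcases hρ with rfl | hρ
    · linarith
    · have := i2 ρ hρ
      linarith

/-- the local lemma for a general function -/
lemma locg {f : ℂ → ℂ} {c : ℂ} {w M Λ : ℝ} (hw0 : 0 < w) (hM1 : 1 ≤ M)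
    (han : AnalyticOnNhd ℂ f (closedBall c (4 * w))) (hc0 : f c ≠ 0)
    (hball : ∀ z ∈ closedBall c (4 * w), ‖f z‖ ≤ M)
    (hcre : 1 < c.re) (hzre : ∀ ρ ∈ closedBall c (2 * w), f ρ = 0 → ρ.re ≤ 1)
    (hlog : Real.log (M / ‖f c‖) ≤ Λ) :
    (-(12 * (Λ + 1) / w) ≤ (deriv f c / f c).re) ∧
    (∀ ρ ∈ closedBall c (2 * w), f ρ = 0 →
      (1 / (c - ρ)).re - 12 * (Λ + 1) / w ≤ (deriv f c / f c).re) ∧
    (∀ z ∈ closedBall c w, ∀ d : ℝ, 0 < d →
      (∀ ρ ∈ closedBall c (2 * w), f ρ = 0 → d ≤ ‖z - ρ‖) →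
      f z ≠ 0 ∧ ‖deriv f z / f z‖ ≤ Λ * (3 / 2) / d + 12 * (Λ + 1) / w) := by
  have hcm : c ∈ closedBall c (4 * w) := mem_closedBall_self (by linarith)
  have hcb := hball c hcm
  have hcpos : 0 < ‖f c‖ := norm_pos_iff.2 hc0
  have hlog0 : 0 ≤ Real.log (M / ‖f c‖) :=
    Real.log_nonneg (by rw [le_div_iff₀ hcpos]; linarith)
  have hq : Real.log (2 * w / (4 * w - 2 * w)) = 0 := by
    have h1 : 4 * w - 2 * w = 2 * w := by ring
    rw [h1, div_self (by positivity), Real.log_one]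
  have herr : 2 * (Real.log (M / ‖f c‖) +
      Real.log (M / ‖f c‖) / Real.log (4 * w / (2 * w)) *
      Real.log (2 * w / (4 * w - 2 * w)) + 1) * (3 / 2 * w) / (2 * w - 3 / 2 * w) /
      (3 / 2 * w - w) ≤ 12 * (Λ + 1) / w := by
    rw [hq]
    have e1 : 2 * w - 3 / 2 * w = w / 2 := by ring
    have e2 : 3 / 2 * w - w = w / 2 := by ring
    rw [e1, e2, mul_zero, add_zero]
    have e3 : 2 * (Real.log (M / ‖f c‖) + 1) * (3 / 2 * w) / (w / 2) / (w / 2) =
        12 * (Real.log (M / ‖f c‖) + 1) / w := by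
      field_simp
      ring
    rw [e3]
    gcongr
  obtain ⟨s, hs1, hs2, hs3⟩ := Pool.Agent.W66.landau_re (f := f) (c := c) (r := 2 * w)
    (r1 := 3 / 2 * w) (r2 := w) (R := 4 * w) (M := M) hw0 (by linarith) (by linarith)
    (by linarith) (by linarith) hM1 hcb han hc0 hball
  have hcne : ∀ ρ ∈ s, c ≠ ρ := by
    intro ρ hρ he
    apply hc0
    rw [he]
    exact (hs1 ρ hρ).2
  have h3 := (hs3 c (mem_closedBall_self hw0.le) hcne).trans herr
  obtain ⟨j1, j2⟩ := sum_re hcre s fun ρ hρ => hzre ρ (hs1 ρ hρ).1 (hs1 ρ hρ).2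
  have h4 := (Complex.abs_re_le_norm _).trans h3
  rw [sub_re, abs_le] at h4
  refine ⟨by linarith [h4.1], fun ρ hρ hρ0 => ?_, fun z hz d hd hdist => ?_⟩
  · have := j2 ρ (hs2 ρ hρ hρ0)
    linarith [h4.1]
  · obtain ⟨h5, h6⟩ := H370.Loc.landau (f := f) (c := c) (r := 2 * w)
      (r1 := 3 / 2 * w) (r2 := w) (R := 4 * w) (M := M) hw0 (by linarith) (by linarith)
      (by linarith) (by linarith) hM1 hcb han hc0 hball z hz d hd hdist
    refine ⟨h5, h6.trans (add_le_add ?_ herr)⟩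
    have e1 : 4 * w / (2 * w) = 2 := by
      field_simp
      norm_num
    rw [e1]
    have hl2 : 2 / 3 ≤ Real.log 2 := by
      have := Real.log_two_gt_d9
      linarith
    have e2 : Real.log (M / ‖f c‖) / Real.log 2 ≤ Λ * (3 / 2) := by
      rw [div_le_iff₀ (by linarith)]
      have h7 : 0 ≤ Λ := hlog0.trans hlog
      nlinarith
    gcongr

/-! ### The Dirichlet series -/

theorem hasSum_bb {h : GaussianInt →* ℂ} (hh : UH h) (s : ℂ) (hs : 1 < s.re) :
    HasSum (fun n : ℕ => bb h n * (n : ℂ) ^ (-s)) (LSeries (bb h) s) := by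
  have H := lg_bb h hh
  have h1 := FF_series (bb h) H.b0 H.bd s hs
  rw [gco_eq (bb h) (ccf h) H (FF (bb h)) (fun s hs => FF_series (bb h) H.b0 H.bd s hs) s hs]
  exact h1

/-- the coefficients of the zeta function -/
noncomputable def b1 (n : ℕ) : ℂ := if n = 0 then 0 else 1

theorem Lg1 : Lg b1 (fun _ => 1) where
  b0 := by simp [b1]
  b1 := by simp [b1]
  bd := by
    intro n
    unfold b1
    split_ifs with hn
    · simp
    · rw [norm_one]
      have : 0 < n.divisors.card := Finset.card_pos.2 ⟨1, Nat.one_mem_divisors.2 hn⟩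
      exact_mod_cast this
  cd := by
    intro n
    rw [norm_one]
    norm_num
  lg := by
    intro n hn
    have h1 := ArithmeticFunction.vonMangoldt_sum (n := n)
    unfold b1
    rw [if_neg hn, one_mul, ← h1]
    push_cast
    apply Finset.sum_congr rfl
    intro d hd
    have hdn : d ∣ n := Nat.dvd_of_mem_divisors hd
    have h2 : n / d ≠ 0 := by
      intro h0
      have := Nat.div_mul_cancel hdn
      rw [h0, zero_mul] at this
      exact hn this.symm
    rw [if_neg h2, mul_one, mul_one]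

theorem hasSum_b1 (s : ℂ) (hs : 1 < s.re) :
    HasSum (fun n : ℕ => b1 n * (n : ℂ) ^ (-s)) (riemannZeta s) := by
  have h1 := FF_series b1 Lg1.b0 Lg1.bd s hs
  have h2 := gco_eq b1 (fun _ => 1) Lg1 (FF b1) (fun s hs => FF_series b1 Lg1.b0 Lg1.bd s hs) s hs
  have h3 : LSeries b1 s = riemannZeta s := by
    rw [← LSeries_one_eq_riemannZeta hs]
    apply LSeries_congr
    intro n hn
    unfold b1
    rw [if_neg hn]
    rfl
  rw [← h3, h2]
  exact h1

/-- the bound for the inverse to the right of one -/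
theorem inv_le {h : GaussianInt →* ℂ} (hh : UH h) {s : ℂ} (hs : 1 < s.re) :
    LSeries (bb h) s ≠ 0 ∧ ‖(LSeries (bb h) s)⁻¹‖ ≤ (1 + 1 / (s.re - 1)) ^ 2 := by
  have H := lg_bb h hh
  have hne := F_ne_zero (bb h) (ccf h) H (LSeries (bb h)) (hasSum_bb hh) s hs
  refine ⟨hne, ?_⟩
  have hexp := F_exp (bb h) (ccf h) H (LSeries (bb h)) (hasSum_bb hh) s hs
  have hsr : 1 < ((s.re : ℝ) : ℂ).re := by simpa using hs
  have hexp1 := F_exp b1 (fun _ => 1) Lg1 riemannZeta hasSum_b1 ((s.re : ℝ) : ℂ) hsr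
  have hsum1 := lco_summable b1 (fun _ => 1) Lg1 ((s.re : ℝ) : ℂ) hsr
  -- real terms
  have ht : ∀ n : ℕ, LSeries.term (lco (fun _ => 1)) ((s.re : ℝ) : ℂ) n =
      ((‖LSeries.term (lco (fun _ => 1)) ((s.re : ℝ) : ℂ) n‖ : ℝ) : ℂ) := by
    intro n
    rcases eq_or_ne n 0 with rfl | hn
    · simp
    · rw [LSeries.term_of_ne_zero hn]
      unfold lco bco
      have hlog : 0 ≤ Real.log n := Real.log_natCast_nonneg n
      have hL : (0 : ℝ) ≤ ArithmeticFunction.vonMangoldt n := ArithmeticFunction.vonMangoldt_nonneg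
      have hnpos : (0 : ℝ) < n := by exact_mod_cast Nat.pos_of_ne_zero hn
      have e : (n : ℂ) ^ ((s.re : ℝ) : ℂ) = (((n : ℝ) ^ s.re : ℝ) : ℂ) := by
        rw [Complex.ofReal_cpow hnpos.le]
        push_cast
        rfl
      rw [e]
      have e2 : (ArithmeticFunction.vonMangoldt n : ℂ) * 1 / (Real.log n : ℂ) /
          (((n : ℝ) ^ s.re : ℝ) : ℂ) =
          ((ArithmeticFunction.vonMangoldt n / Real.log n / (n : ℝ) ^ s.re : ℝ) : ℂ) := by
        push_cast
        ring
      rw [e2, Complex.norm_real, Real.norm_of_nonneg]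
      positivity
  have hP : LSeries (lco (fun _ => 1)) ((s.re : ℝ) : ℂ) =
      ((∑' n : ℕ, ‖LSeries.term (lco (fun _ => 1)) ((s.re : ℝ) : ℂ) n‖ : ℝ) : ℂ) := by
    unfold LSeries
    rw [Complex.ofReal_tsum]
    exact tsum_congr ht
  set P : ℝ := ∑' n : ℕ, ‖LSeries.term (lco (fun _ => 1)) ((s.re : ℝ) : ℂ) n‖ with hPdef
  have hzeta : Real.exp P ≤ 1 + 1 / (s.re - 1) := by
    have h1 : ‖riemannZeta ((s.re : ℝ) : ℂ)‖ = Real.exp P := by
      rw [hexp1, hP, Complex.norm_exp, Complex.ofReal_re]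
    rw [← h1]
    have h2 : riemannZeta ((s.re : ℝ) : ℂ) = LSeries 1 ((s.re : ℝ) : ℂ) :=
      (LSeries_one_eq_riemannZeta hsr).symm
    rw [h2, LSeries]
    refine le_trans ?_ (Pool.Agent.Y333.VK.zeta_le hs)
    have hsum : Summable (fun n : ℕ => (n : ℝ) ^ (-s.re)) :=
      Real.summable_nat_rpow.mpr (by linarith)
    refine tsum_of_norm_bounded hsum.hasSum ?_
    intro n
    rcases Nat.eq_zero_or_pos n with rfl | hn
    · rw [LSeries.term_zero, norm_zero]
      exact Real.rpow_nonneg (Nat.cast_nonneg 0) _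
    · rw [LSeries.term_of_ne_zero hn.ne', norm_div, Complex.norm_natCast_cpow_of_pos hn,
        Complex.ofReal_re, Real.rpow_neg (Nat.cast_nonneg n), Pi.one_apply, norm_one, one_div]
  have hbound : ‖LSeries (lco (ccf h)) s‖ ≤ 2 * P := by
    have hsm := (hsum1.norm).mul_left 2
    have h1 : 2 * P = ∑' n : ℕ, 2 * ‖LSeries.term (lco (fun _ => 1)) ((s.re : ℝ) : ℂ) n‖ := by
      rw [hPdef, tsum_mul_left]
    rw [h1]
    refine tsum_of_norm_bounded hsm.hasSum ?_
    intro n
    rcases eq_or_ne n 0 with rfl | hn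
    · simp
    · rw [LSeries.term_of_ne_zero hn, LSeries.term_of_ne_zero hn, norm_div, norm_div,
        Complex.norm_natCast_cpow_of_pos (Nat.pos_of_ne_zero hn),
        Complex.norm_natCast_cpow_of_pos (Nat.pos_of_ne_zero hn), Complex.ofReal_re,
        ← mul_div_assoc]
      apply div_le_div_of_nonneg_right _ (by positivity)
      unfold lco bco
      rw [norm_div, norm_div, norm_mul, norm_mul, norm_one, mul_one, ← mul_div_assoc]
      apply div_le_div_of_nonneg_right _ (norm_nonneg _)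
      have := H.cd n
      nlinarith [norm_nonneg ((ArithmeticFunction.vonMangoldt n : ℂ))]
  rw [norm_inv, hexp, Complex.norm_exp, ← Real.exp_neg]
  have h1 : -(LSeries (lco (ccf h)) s).re ≤ 2 * P :=
    (neg_le_abs _).trans ((Complex.abs_re_le_norm _).trans hbound)
  calc Real.exp (-(LSeries (lco (ccf h)) s).re) ≤ Real.exp (2 * P) := Real.exp_le_exp.2 h1
    _ = Real.exp P ^ 2 := by
      rw [← Real.exp_nat_mul]
      norm_num
    _ ≤ (1 + 1 / (s.re - 1)) ^ 2 := pow_le_pow_left₀ (Real.exp_pos _).le hzeta 2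

end Pool.Agent.N487.GN
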