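import Pool.Agent.N487.GN.InvA

/-!
Project GN (helper782), leaf INVL: the 3-4-1 inequality over `ℤ[i]` and the Dedekind zeta function (helper487).
-/

set_option autoImplicit false

open Complex Filter Topology Set MeasureTheory Metric

namespace Pool.Agent.N487.GN

open Pool.Agent.H304R3.HK Pool.Agent.H304R3.HK.LogDerH Pool.Agent.H304R3.HK.M4

theorem UH_h1 : UH h1 where
  h0 := by
    show (if (0 : GaussianInt) = 0 then (0 : ℂ) else 1) = 0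
    rw [if_pos rfl]
  hb := by
    intro a
    show ‖(if a = 0 then (0 : ℂ) else 1)‖ ≤ 1
    split_ifs
    · simp
    · simp
  hi := h1i

theorem UH_sq {h : GaussianInt →* ℂ} (hh : UH h) : UH (h * h) where
  h0 := by rw [MonoidHom.mul_apply, hh.h0, mul_zero]
  hb := by
    intro a
    rw [MonoidHom.mul_apply, norm_mul]
    exact mul_le_one₀ (hh.hb a) (norm_nonneg _) (hh.hb a)
  hi := by rw [MonoidHom.mul_apply, hh.hi, mul_one]

theorem LamK_nonneg (a : GaussianInt) : 0 ≤ LamK a := by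
  unfold LamK
  split_ifs with h
  · have h2 : 0 ≤ (h.choose).norm := norm_nn _
    obtain ⟨m, hm⟩ := Int.eq_ofNat_of_zero_le h2
    rw [hm]
    exact_mod_cast Real.log_natCast_nonneg m
  · exact le_rfl

/-- minus the logarithmic derivative -/
noncomputable def DK (h : GaussianInt → ℂ) (s : ℂ) : ℂ :=
  ∑' n : ℕ, ((ArithmeticFunction.vonMangoldt n : ℂ) * ccf h n) * (n : ℂ) ^ (-s)

theorem summ {h : GaussianInt →* ℂ} (hh : UH h) {s : ℂ} (hs : 1 < s.re) :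
    Summable (fun n : ℕ => ((ArithmeticFunction.vonMangoldt n : ℂ) * ccf h n) * (n : ℂ) ^ (-s)) := by
  have h1 := bco_summable (bb h) (ccf h) (lg_bb h hh) s hs
  refine Summable.congr h1 ?_
  intro n
  rw [term_b (bco (ccf h)) (by simp [bco]) s n, bco]

theorem ld {h : GaussianInt →* ℂ} (hh : UH h) {s : ℂ} (hs : 1 < s.re) :
    deriv (LSeries (bb h)) s / LSeries (bb h) s = -DK h s :=
  F_ld (bb h) (ccf h) (lg_bb h hh) (LSeries (bb h)) (hasSum_bb hh) s hs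

lemma re_341 {w : ℂ} (hw : ‖w‖ ≤ 1) : 0 ≤ (3 + 4 * w + w ^ 2).re := by
  have h1 : w.re ^ 2 + w.im ^ 2 ≤ 1 := by
    have h2 : ‖w‖ ^ 2 ≤ 1 := by
      have := norm_nonneg w
      nlinarith
    rw [← Complex.normSq_eq_norm_sq, Complex.normSq_apply] at h2
    nlinarith
  have h2 : (3 + 4 * w + w ^ 2).re = 3 + 4 * w.re + (w.re ^ 2 - w.im ^ 2) := by
    simp [pow_two]
  rw [h2]
  nlinarith [sq_nonneg (1 + w.re)]

lemma term_nonneg {h : GaussianInt →* ℂ} (hh : UH h) (σ τ : ℝ) (n : ℕ) :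
    0 ≤ (3 * (((ArithmeticFunction.vonMangoldt n : ℂ) * ccf h1 n) * (n : ℂ) ^ (-(⟨σ, 0⟩ : ℂ))) +
      4 * (((ArithmeticFunction.vonMangoldt n : ℂ) * ccf h n) * (n : ℂ) ^ (-(⟨σ, τ⟩ : ℂ))) +
      ((ArithmeticFunction.vonMangoldt n : ℂ) * ccf (h * h : GaussianInt →* ℂ) n) *
        (n : ℂ) ^ (-(⟨σ, 2 * τ⟩ : ℂ))).re := by
  rcases Nat.eq_zero_or_pos n with rfl | hn
  · simp
  rw [← lam_eq h1 UH_h1, ← lam_eq h hh, ← lam_eq (h * h) (UH_sq hh)]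
  have hn0 : (n : ℂ) ≠ 0 := by exact_mod_cast hn.ne'
  have hnr : (0 : ℝ) < n := by exact_mod_cast hn
  set N : ℝ := (n : ℝ) ^ (-σ) with hN
  have hN0 : 0 < N := Real.rpow_pos_of_pos hnr _
  set u : ℂ := (n : ℂ) ^ (-(τ * I)) with hu
  have hu1 : ‖u‖ = 1 := by
    rw [hu, Complex.norm_natCast_cpow_of_pos hn]
    simp
  have e0 : (n : ℂ) ^ (-(⟨σ, 0⟩ : ℂ)) = (N : ℂ) := by
    have : (⟨σ, 0⟩ : ℂ) = ((σ : ℝ) : ℂ) := rfl
    rw [this, hN, Complex.ofReal_cpow hnr.le]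
    push_cast
    rfl
  have e1 : (n : ℂ) ^ (-(⟨σ, τ⟩ : ℂ)) = (N : ℂ) * u := by
    have : -(⟨σ, τ⟩ : ℂ) = -(⟨σ, 0⟩ : ℂ) + -(τ * I) := by
      apply Complex.ext <;> simp
    rw [this, Complex.cpow_add _ _ hn0, e0]
  have e2 : (n : ℂ) ^ (-(⟨σ, 2 * τ⟩ : ℂ)) = (N : ℂ) * u ^ 2 := by
    have : -(⟨σ, 2 * τ⟩ : ℂ) = -(⟨σ, 0⟩ : ℂ) + -(τ * I) + -(τ * I) := by
      apply Complex.ext <;> simp
      ring
    rw [this, Complex.cpow_add _ _ hn0, Complex.cpow_add _ _ hn0, e0]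
    ring
  rw [e0, e1, e2]
  unfold bb
  have key : 3 * ((1 / 4 : ℂ) * ∑ p ∈ CS n, (LamK ⟨p.1, p.2⟩ : ℂ) * h1 ⟨p.1, p.2⟩ * (N : ℂ)) +
      4 * ((1 / 4 : ℂ) * ∑ p ∈ CS n, (LamK ⟨p.1, p.2⟩ : ℂ) * h ⟨p.1, p.2⟩ * ((N : ℂ) * u)) +
      (1 / 4 : ℂ) * ∑ p ∈ CS n, (LamK ⟨p.1, p.2⟩ : ℂ) * (h * h) ⟨p.1, p.2⟩ * ((N : ℂ) * u ^ 2) =
      ((N / 4 : ℝ) : ℂ) * ∑ p ∈ CS n, (LamK ⟨p.1, p.2⟩ : ℂ) *
        (3 * h1 ⟨p.1, p.2⟩ + 4 * (h ⟨p.1, p.2⟩ * u) + (h ⟨p.1, p.2⟩ * u) ^ 2) := by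
    rw [← mul_assoc 3, ← mul_assoc 4, Finset.mul_sum, Finset.mul_sum, Finset.mul_sum,
      Finset.mul_sum, ← Finset.sum_add_distrib, ← Finset.sum_add_distrib]
    apply Finset.sum_congr rfl
    intro p _
    rw [MonoidHom.mul_apply]
    push_cast
    ring
  have e3 : ∀ (f : GaussianInt → ℂ) (y : ℂ), (1 / 4 : ℂ) * (∑ p ∈ CS n, f ⟨p.1, p.2⟩) * y =
      (1 / 4 : ℂ) * ∑ p ∈ CS n, f ⟨p.1, p.2⟩ * y := by
    intro f y
    rw [mul_assoc, Finset.sum_mul]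
  rw [e3 (fun a => (LamK a : ℂ) * h1 a), e3 (fun a => (LamK a : ℂ) * h a),
    e3 (fun a => (LamK a : ℂ) * (h * h) a), key, Complex.re_ofReal_mul]
  apply mul_nonneg (by positivity)
  rw [Complex.re_sum]
  apply Finset.sum_nonneg
  intro p hp
  rw [Complex.re_ofReal_mul]
  apply mul_nonneg (LamK_nonneg _)
  have hp0 : (⟨p.1, p.2⟩ : GaussianInt) ≠ 0 := by
    intro h0
    rw [Zsqrtd.ext_iff] at h0
    obtain ⟨h01, h02⟩ := h0
    simp only [Zsqrtd.re_zero, Zsqrtd.im_zero] at h01 h02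
    have h3 := (mem_CS (a := p.1) (b := p.2)).1 hp
    rw [h01, h02] at h3
    have h4 : ((n : ℕ) : ℤ) = 0 := by
      rw [← h3]; norm_num
    have h5 : n = 0 := by exact_mod_cast h4
    omega
  rw [h1_of hp0, mul_one]
  apply re_341
  rw [norm_mul, hu1, mul_one]
  exact hh.hb _

theorem three_four_one {h : GaussianInt →* ℂ} (hh : UH h) {σ : ℝ} (hσ : 1 < σ) (τ : ℝ) :
    0 ≤ 3 * (DK h1 ⟨σ, 0⟩).re + 4 * (DK h ⟨σ, τ⟩).re +
      (DK (h * h : GaussianInt →* ℂ) ⟨σ, 2 * τ⟩).re := by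
  have s0 := summ UH_h1 (s := ⟨σ, 0⟩) hσ
  have s1 := summ hh (s := ⟨σ, τ⟩) hσ
  have s2 := summ (UH_sq hh) (s := ⟨σ, 2 * τ⟩) hσ
  have hs := ((s0.hasSum.mul_left 3).add (s1.hasSum.mul_left 4)).add s2.hasSum
  have h3 := Complex.hasSum_re hs
  have h4 : 0 ≤ (3 * (DK h1 ⟨σ, 0⟩) + 4 * (DK h ⟨σ, τ⟩) +
      (DK (h * h : GaussianInt →* ℂ) ⟨σ, 2 * τ⟩)).re :=
    h3.nonneg fun n => term_nonneg hh σ τ n
  have e3 : (3 * (DK h1 ⟨σ, 0⟩)).re = 3 * (DK h1 ⟨σ, 0⟩).re := by simp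
  have e4 : (4 * (DK h ⟨σ, τ⟩)).re = 4 * (DK h ⟨σ, τ⟩).re := by simp
  rw [add_re, add_re, e3, e4] at h4
  exact h4

/-- the character modulo four -/
noncomputable def x4 : DirichletCharacter ℂ 4 := ZMod.χ₄.ringHomComp (Int.castRingHom ℂ)

theorem x4_ne : x4 ≠ 1 := by
  intro h
  have h1 : x4 ((3 : ℕ) : ZMod 4) = 1 := by
    rw [h]
    apply MulChar.one_apply
    decide
  unfold x4 at h1
  rw [MulChar.ringHomComp_apply] at h1
  have h2 : ZMod.χ₄ ((3 : ℕ) : ZMod 4) = -1 := by decide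
  rw [h2] at h1
  norm_num at h1

theorem x4_bd : ∃ K : ℝ, ∀ σ : ℝ, 1 < σ → σ ≤ 2 →
    ‖LSeries ((fun n : ℕ => x4 n) * fun n : ℕ => (ArithmeticFunction.vonMangoldt n : ℂ)) (σ : ℂ)‖ ≤ K := by
  have hd := DirichletCharacter.differentiable_LFunction x4_ne
  have hc : ContinuousOn (fun x : ℝ => deriv (DirichletCharacter.LFunction x4) (x : ℂ) /
      DirichletCharacter.LFunction x4 (x : ℂ)) (Icc 1 2) := by
    apply ContinuousOn.div
    · have h1 : Continuous (deriv (DirichletCharacter.LFunction x4)) :=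
        (hd.contDiff (n := 1)).continuous_deriv le_rfl
      exact (h1.comp Complex.continuous_ofReal).continuousOn
    · exact (hd.continuous.comp Complex.continuous_ofReal).continuousOn
    · intro x hx
      exact DirichletCharacter.LFunction_ne_zero_of_one_le_re x4 (Or.inl x4_ne) (by
        simpa using hx.1)
  obtain ⟨K, hK⟩ := isCompact_Icc.exists_bound_of_continuousOn hc
  refine ⟨K, fun σ h1 h2 => ?_⟩
  have hs : 1 < ((σ : ℝ) : ℂ).re := by simpa using h1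
  have h3 := DirichletCharacter.LSeries_twist_vonMangoldt_eq x4 hs
  have h4 := hK σ ⟨h1.le, h2⟩
  rw [DirichletCharacter.deriv_LFunction_eq_deriv_LSeries x4 hs,
    DirichletCharacter.LFunction_eq_LSeries x4 hs] at h4
  rw [h3, neg_div, norm_neg]
  exact h4

theorem DK_one : ∃ K : ℝ, 0 ≤ K ∧ ∀ σ : ℝ, 1 < σ → σ ≤ 2 →
    (DK h1 ⟨σ, 0⟩).re ≤ 1 / (σ - 1) + K := by
  obtain ⟨K0, hK0, hD⟩ := Pool.Agent.W66.D_re
  obtain ⟨K1, hK1⟩ := x4_bd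
  have hell := Pool.Agent.W66.one_le_ell 0
  have hK1' : 0 ≤ K1 := (norm_nonneg _).trans (hK1 2 (by norm_num) le_rfl)
  refine ⟨K0 * Pool.Agent.W66.ell 0 + K1, by positivity, fun σ g1 g2 => ?_⟩
  have hs : 1 < ((σ : ℝ) : ℂ).re := by simpa using g1
  have hz := ArithmeticFunction.LSeriesSummable_vonMangoldt hs
  have hx := DirichletCharacter.LSeriesSummable_twist_vonMangoldt x4 hs
  have e : DK h1 ⟨σ, 0⟩ = LSeries (fun n => (ArithmeticFunction.vonMangoldt n : ℂ)) (σ : ℂ) +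
      LSeries ((fun n : ℕ => x4 n) * fun n : ℕ => (ArithmeticFunction.vonMangoldt n : ℂ)) (σ : ℂ) := by
    rw [← LSeries_add hz hx]
    unfold DK LSeries
    apply tsum_congr
    intro n
    rcases eq_or_ne n 0 with rfl | hn
    · simp
    rw [LSeries.term_of_ne_zero hn, ← lam_eq h1 UH_h1]
    have e1 : (fun a : GaussianInt => (LamK a : ℂ) * h1 a) = fun a : GaussianInt => (LamK a : ℂ) := by
      funext a
      by_cases ha : a = 0
      · rw [ha, LamK_0]; simp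
      · rw [h1_of ha, mul_one]
    rw [e1, lam_one n]
    have e2 : (⟨σ, 0⟩ : ℂ) = ((σ : ℝ) : ℂ) := rfl
    rw [e2, Complex.cpow_neg, ← div_eq_mul_inv]
    congr 1
    simp only [Pi.add_apply, Pi.mul_apply]
    unfold x4
    rw [MulChar.ringHomComp_apply]
    push_cast
    simp only [eq_intCast]
    ring
  have hs' : 1 < (⟨σ, 0⟩ : ℂ).re := g1
  have d0 := (hD 0 σ g1 g2).1
  rw [e, add_re]
  have e5 := Pool.Agent.W66.LSeries_eq_DD hs'
  have e2 : ((σ : ℝ) : ℂ) = (⟨σ, 0⟩ : ℂ) := rfl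
  have h3 := hK1 σ g1 g2
  have h4 := (le_abs_self _).trans ((Complex.abs_re_le_norm _).trans h3)
  rw [e2] at h4 ⊢
  rw [e5, sub_re]
  have e0 : (1 / ((⟨σ, 0⟩ : ℂ) - 1)).re = 1 / (σ - 1) := by
    have e : (⟨σ, 0⟩ : ℂ) - 1 = ((σ - 1 : ℝ) : ℂ) := by
      apply Complex.ext <;> simp
    rw [e, ← Complex.ofReal_one, ← Complex.ofReal_div, Complex.ofReal_re]
  rw [e0]
  have d1 : -K0 * Pool.Agent.W66.ell 0 ≤ (Pool.Agent.W66.DD ⟨σ, 0⟩).re := d0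
  linarith

end Pool.Agent.N487.GN
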