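import Pool.Agent.N487.GN.InvB

/-!
Project GN (helper782), leaf INVL: zero free region and bound for the inverse of the Dirichlet series of a
completely multiplicative function on `ℤ[i]` (helper487).
-/

set_option autoImplicit false

open Complex Filter Topology Set MeasureTheory Metric

namespace Pool.Agent.N487.GN

open Pool.Agent.H304R3.HK Pool.Agent.H304R3.HK.M4

lemma norm_row (x y t : ℝ) : ‖(⟨x, t⟩ : ℂ) - ⟨y, t⟩‖ = |x - y| := by
  have e : (⟨x, t⟩ : ℂ) - ⟨y, t⟩ = ((x - y : ℝ) : ℂ) := by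
    apply Complex.ext <;> simp
  rw [e, Complex.norm_real, Real.norm_eq_abs]

/-- the hypotheses on the continuation -/
structure Hy (h : GaussianInt → ℂ) (L : ℂ → ℂ) (t W θ R : ℝ) : Prop where
  d : DifferentiableOn ℂ L {s | 1 - 4 * θ < s.re ∧ |s.im - t| < W}
  e : ∀ s : ℂ, 1 < s.re → |s.im - t| < W → L s = LSeries (bb h) s
  b : ∀ s : ℂ, 1 - 4 * θ < s.re → s.re ≤ 3 → |s.im - t| < W → ‖L s‖ ≤ R

lemma isOpen_reg (t W a : ℝ) : IsOpen {s : ℂ | a < s.re ∧ |s.im - t| < W} := by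
  apply IsOpen.inter
  · exact isOpen_lt continuous_const continuous_re
  · exact isOpen_lt ((continuous_im.sub continuous_const).abs) continuous_const

lemma locL {h : GaussianInt →* ℂ} (hh : UH h) {L : ℂ → ℂ} {t W θ R η τ : ℝ} (H : Hy h L t W θ R)
    (hθ0 : 0 < θ) (hθ1 : θ ≤ 1 / 20) (hR : 3 ≤ R) (hη0 : 0 < η) (hη : η ≤ θ / 2)
    (hτ : |τ - t| + 2 * θ < W) :
    (-(12 * (Real.log (R * (1 + 1 / η) ^ 2) + 1) / (θ / 2)) ≤ -(DK h ⟨1 + η, τ⟩).re) ∧
    (∀ β : ℝ, 1 + η - θ ≤ β → L ⟨β, τ⟩ = 0 →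
      1 / (1 + η - β) - 12 * (Real.log (R * (1 + 1 / η) ^ 2) + 1) / (θ / 2) ≤
        -(DK h ⟨1 + η, τ⟩).re) ∧
    (∀ z ∈ closedBall (⟨1 + η, τ⟩ : ℂ) (θ / 2), ∀ d : ℝ, 0 < d →
      (∀ ρ ∈ closedBall (⟨1 + η, τ⟩ : ℂ) θ, L ρ = 0 → d ≤ ‖z - ρ‖) →
      L z ≠ 0 ∧ ‖deriv L z / L z‖ ≤ Real.log (R * (1 + 1 / η) ^ 2) * (3 / 2) / d +
        12 * (Real.log (R * (1 + 1 / η) ^ 2) + 1) / (θ / 2)) := by
  set c : ℂ := ⟨1 + η, τ⟩ with hc
  have hcr : c.re = 1 + η := rfl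
  have hci : c.im = τ := rfl
  have hW0 : |τ - t| < W := by linarith
  have hcre : 1 < c.re := by rw [hcr]; linarith
  have hmem : ∀ z ∈ closedBall c (4 * (θ / 2)), 1 - 4 * θ < z.re ∧ z.re ≤ 3 ∧ |z.im - t| < W := by
    intro z hz
    rw [mem_closedBall, dist_eq_norm] at hz
    have h1 := (abs_re_le_norm (z - c)).trans hz
    have h2 := (abs_im_le_norm (z - c)).trans hz
    rw [sub_re, hcr, abs_le] at h1
    rw [sub_im, hci] at h2
    have h3 : |z.im - t| ≤ |z.im - τ| + |τ - t| := by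
      have : z.im - t = (z.im - τ) + (τ - t) := by ring
      rw [this]
      exact abs_add_le _ _
    refine ⟨by linarith [h1.1], by linarith [h1.2], by linarith⟩
  have hopen := isOpen_reg t W (1 - 4 * θ)
  have han : AnalyticOnNhd ℂ L (closedBall c (4 * (θ / 2))) :=
    (H.d.analyticOnNhd hopen).mono fun z hz => ⟨(hmem z hz).1, (hmem z hz).2.2⟩
  have hLc : L c = LSeries (bb h) c := H.e c hcre (by rw [hci]; exact hW0)
  obtain ⟨i1, i2⟩ := inv_le hh hcre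
  have hc0 : L c ≠ 0 := by rw [hLc]; exact i1
  have hzre : ∀ ρ ∈ closedBall c (2 * (θ / 2)), L ρ = 0 → ρ.re ≤ 1 := by
    intro ρ hρ h0
    by_contra hcon
    push Not at hcon
    have h1 := hmem ρ (closedBall_subset_closedBall (by linarith) hρ)
    rw [H.e ρ hcon h1.2.2] at h0
    exact (inv_le hh hcon).1 h0
  have hcpos : 0 < ‖L c‖ := norm_pos_iff.2 hc0
  have hlog : Real.log (R / ‖L c‖) ≤ Real.log (R * (1 + 1 / η) ^ 2) := by
    apply Real.log_le_log (by positivity)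
    rw [div_eq_mul_inv]
    apply mul_le_mul_of_nonneg_left _ (by linarith)
    rw [← norm_inv, hLc]
    have h2 : c.re - 1 = η := by rw [hcr]; ring
    rw [h2] at i2
    exact i2
  have hder : deriv L c / L c = -DK h c := by
    rw [← ld hh hcre, hLc]
    congr 1
    apply Filter.EventuallyEq.deriv_eq
    filter_upwards [(isOpen_reg t W 1).mem_nhds (show c ∈ {s : ℂ | 1 < s.re ∧ |s.im - t| < W} from
      ⟨hcre, by rw [hci]; exact hW0⟩)] with z hz
    exact H.e z hz.1 hz.2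
  obtain ⟨l1, l2, l3⟩ := locg (w := θ / 2) (M := R) (by linarith) (by linarith) han hc0
    (fun z hz => H.b z (hmem z hz).1 (hmem z hz).2.1 (hmem z hz).2.2) hcre hzre hlog
  have e2 : 2 * (θ / 2) = θ := by ring
  rw [e2] at l2 l3
  rw [hder, neg_re] at l1 l2
  refine ⟨l1, fun β hβ h0 => ?_, l3⟩
  have hβ1 : β ≤ 1 + η := by
    by_contra hcon
    push Not at hcon
    have h1 : 1 < (⟨β, τ⟩ : ℂ).re := by
      show 1 < β
      linarith
    rw [H.e _ h1 hW0] at h0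
    exact (inv_le hh h1).1 h0
  have h1 := l2 ⟨β, τ⟩ (by
    rw [mem_closedBall, dist_eq_norm, hc, norm_row, abs_le]
    constructor <;> linarith) h0
  have e1 : (1 / (c - ⟨β, τ⟩)).re = 1 / (1 + η - β) := by
    have e : c - ⟨β, τ⟩ = ((1 + η - β : ℝ) : ℂ) := by
      apply Complex.ext <;> simp [hc]
    rw [e, ← Complex.ofReal_one, ← Complex.ofReal_div, Complex.ofReal_re]
  rwa [e1] at h1

/-- the logarithmic quantity -/
lemma lam_le {A R θ : ℝ} (hA : 1 ≤ A) (hθ0 : 0 < θ) (hθ1 : θ ≤ 1 / 20) (hR : 3 ≤ R) :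
    4 ≤ Real.log (R / θ) ∧ Real.log (R * (1 + 1 / (θ / 2 / (A * Real.log (R / θ)))) ^ 2) + 1 ≤
      (6 + Real.log A) * Real.log (R / θ) := by
  have hQ4 : 4 ≤ Real.log (R / θ) := by
    rw [Real.le_log_iff_exp_le (by positivity)]
    have h1 : 60 ≤ R / θ := by
      rw [le_div_iff₀ hθ0]
      linarith
    have h2 := Real.exp_one_lt_d9
    have h3 : Real.exp 4 = Real.exp 1 ^ 4 := by
      rw [← Real.exp_nat_mul]
      norm_num
    have h4 : Real.exp 1 ^ 4 ≤ 2.7182818286 ^ 4 := pow_le_pow_left₀ (Real.exp_pos _).le h2.le 4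
    rw [h3]
    refine (h4.trans ?_).trans h1
    norm_num
  refine ⟨hQ4, ?_⟩
  have hQe : Real.log (R / θ) = Real.log R + Real.log (1 / θ) := by
    rw [Real.log_div (by linarith) hθ0.ne', one_div, Real.log_inv]
    ring
  have hlR : 0 ≤ Real.log R := Real.log_nonneg (by linarith)
  have hlθ : 0 ≤ Real.log (1 / θ) := Real.log_nonneg (by
    rw [le_div_iff₀ hθ0]
    linarith)
  have hlA : 0 ≤ Real.log A := Real.log_nonneg hA
  generalize Real.log (R / θ) = Q at *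
  have hQ0 : 0 < Q := by linarith
  have hA0 : 0 < A := by linarith
  have h1 : 1 + 1 / (θ / 2 / (A * Q)) ≤ 4 * A * Q * (1 / θ) := by
    have e : 1 / (θ / 2 / (A * Q)) = 2 * (A * Q * (1 / θ)) := by
      field_simp
    have h2 : 1 ≤ A * Q * (1 / θ) := by
      have h3 : 1 ≤ 1 / θ := by
        rw [le_div_iff₀ hθ0]
        linarith
      have h4 : 1 ≤ A * Q := by nlinarith
      nlinarith
    rw [e]
    linarith
  have h2 : Real.log (R * (1 + 1 / (θ / 2 / (A * Q))) ^ 2) ≤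
      Real.log (R * (4 * A * Q * (1 / θ)) ^ 2) := by
    apply Real.log_le_log (by positivity)
    apply mul_le_mul_of_nonneg_left _ (by linarith)
    exact pow_le_pow_left₀ (by positivity) h1 2
  have h3 : Real.log (R * (4 * A * Q * (1 / θ)) ^ 2) =
      Real.log R + 2 * (Real.log 4 + Real.log A + Real.log Q + Real.log (1 / θ)) := by
    rw [Real.log_mul (by linarith) (by positivity), Real.log_pow,
      Real.log_mul (by positivity) (by positivity), Real.log_mul (by positivity) (by positivity),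
      Real.log_mul (by positivity) (by positivity)]
    push_cast
    ring
  have h4 : Real.log 4 ≤ 3 / 2 := by
    have h5 : Real.log 4 = 2 * Real.log 2 := by
      rw [show (4 : ℝ) = 2 ^ 2 by norm_num, Real.log_pow]
      norm_num
    rw [h5]
    have := Real.log_two_lt_d9
    linarith
  have h5 : Real.log Q ≤ Q := (Real.log_le_sub_one_of_pos hQ0).trans (by linarith)
  rw [h3] at h2
  nlinarith

/-- zero free region -/
lemma zfree {K A : ℝ} (hK0 : 0 ≤ K) (hK : ∀ σ : ℝ, 1 < σ → σ ≤ 2 →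
    (DK h1 ⟨σ, 0⟩).re ≤ 1 / (σ - 1) + K) (hA1 : 1 ≤ A)
    (hA : 3 * K + 60 * (6 + Real.log A) ≤ A / 2)
    {h : GaussianInt →* ℂ} (hh : UH h) {L1 L2 : ℂ → ℂ} {t θ R : ℝ} (H1 : Hy h L1 t (4 * θ) θ R)
    (H2 : Hy (h * h : GaussianInt →* ℂ) L2 (2 * t) (8 * θ) θ R)
    (hθ0 : 0 < θ) (hθ1 : θ ≤ 1 / 20) (hR : 3 ≤ R) {β τ : ℝ} (hτ : |τ - t| ≤ θ)
    (h0 : L1 ⟨β, τ⟩ = 0) : β ≤ 1 - θ / 2 / (7 * A * Real.log (R / θ)) := by
  obtain ⟨hQ4, hlam⟩ := lam_le hA1 hθ0 hθ1 hR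
  have hloc1 := fun (η : ℝ) => @locL h hh L1 t (4 * θ) θ R η τ H1 hθ0 hθ1 hR
  have hloc2 := fun (η : ℝ) => @locL (h * h) (UH_sq hh) L2 (2 * t) (8 * θ) θ R η (2 * τ) H2 hθ0 hθ1 hR
  generalize Real.log (R / θ) = Q at *
  have hQ0 : 0 < Q := by linarith
  have hA0 : 0 < A := by linarith
  set w : ℝ := θ / 2 with hw
  have hw0 : 0 < w := by positivity
  set η : ℝ := w / (A * Q) with hη
  have hη0 : 0 < η := by positivity
  have hηw : η ≤ w := div_le_self hw0.le (by nlinarith)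
  have e4 : w / (7 * A * Q) = η / 7 := by
    rw [hη]
    field_simp
  rw [e4]
  by_cases hre : β < 1 - w
  · linarith
  push Not at hre
  have h341 := three_four_one hh (σ := 1 + η) (by linarith) τ
  have d0 := hK (1 + η) (by linarith) (by linarith)
  have hτ2 : |2 * τ - 2 * t| ≤ 2 * θ := by
    have : 2 * τ - 2 * t = 2 * (τ - t) := by ring
    rw [this, abs_mul, abs_two]
    linarith
  have d1 := (hloc1 η hη0 hηw (by linarith)).2.1 β (by linarith) h0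
  have d2 := (hloc2 η hη0 hηw (by linarith)).1
  have e1 : 1 + η - 1 = η := by ring
  rw [e1] at d0
  have hE : 12 * (Real.log (R * (1 + 1 / η) ^ 2) + 1) / w ≤ 12 * (6 + Real.log A) * (Q / w) := by
    calc 12 * (Real.log (R * (1 + 1 / η) ^ 2) + 1) / w ≤ 12 * ((6 + Real.log A) * Q) / w := by gcongr
      _ = 12 * (6 + Real.log A) * (Q / w) := by ring
  have h3η : 1 / η = A * (Q / w) := by
    rw [hη]
    field_simp
  have hX1 : 1 ≤ Q / w := by
    rw [le_div_iff₀ hw0]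
    linarith
  have hβ1 : 0 < 1 + η - β := by
    by_contra hcon
    push Not at hcon
    have h1' : 1 < (⟨β, τ⟩ : ℂ).re := by
      show 1 < β
      linarith
    rw [H1.e _ h1' (by
      show |τ - t| < 4 * θ
      linarith)] at h0
    exact (inv_le hh h1').1 h0
  set X : ℝ := Q / w with hX
  have hm : 4 * (1 / (1 + η - β)) ≤ 7 / 2 * A * X := by
    have h5 : (3 * K + 60 * (6 + Real.log A)) * X ≤ A / 2 * X :=
      mul_le_mul_of_nonneg_right hA (by linarith)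
    have h6 : 3 * K ≤ 3 * K * X := by nlinarith
    nlinarith
  have hm2 : 4 ≤ 7 / 2 * A * X * (1 + η - β) := by
    have h1' : 4 * (1 / (1 + η - β)) = 4 / (1 + η - β) := by ring
    rw [h1', div_le_iff₀ hβ1] at hm
    exact hm
  have hAX : A * X * η = 1 := by
    rw [← h3η]
    field_simp
  have hAX0 : 0 < A * X := by positivity
  by_contra hcon
  push Not at hcon
  have h7 : 1 + η - β < 8 / 7 * η := by linarith
  have h8 := mul_lt_mul_of_pos_left h7 hAX0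
  nlinarith

/-- growth along a horizontal segment -/
lemma grow {L : ℂ → ℂ} {σ x1 t G : ℝ} (hσ : σ ≤ x1)
    (hdf : ∀ x ∈ Icc σ x1, DifferentiableAt ℂ L ⟨x, t⟩)
    (h : ∀ x ∈ Icc σ x1, L ⟨x, t⟩ ≠ 0 ∧ ‖deriv L ⟨x, t⟩ / L ⟨x, t⟩‖ ≤ G) :
    ‖L ⟨x1, t⟩‖ ≤ ‖L ⟨σ, t⟩‖ * Real.exp (G * (x1 - σ)) := by
  have hd : ∀ x ∈ Icc σ x1, HasDerivAt (fun x : ℝ => L ⟨x, t⟩) (deriv L ⟨x, t⟩) x := by
    intro x hx
    have h1 := (hdf x hx).hasDerivAt
    have h2 : HasDerivAt (fun x : ℝ => (⟨x, t⟩ : ℂ)) 1 x := by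
      have h3 : (fun x : ℝ => (⟨x, t⟩ : ℂ)) = fun x : ℝ => (x : ℂ) + t * I := by
        ext x
        apply Complex.ext <;> simp
      rw [h3]
      exact (HasDerivAt.ofReal_comp (hasDerivAt_id x)).add_const _
    have h3 := HasDerivAt.comp x h1 h2
    rw [mul_one] at h3
    exact h3
  have hg := norm_le_gronwallBound_of_norm_deriv_right_le (f := fun x : ℝ => L ⟨x, t⟩)
    (f' := fun x => deriv L ⟨x, t⟩) (δ := ‖L ⟨σ, t⟩‖) (K := G) (ε := 0)
    (a := σ) (b := x1) (fun x hx => (hd x hx).continuousAt.continuousWithinAt)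
    (fun x hx => (hd x ⟨hx.1, hx.2.le⟩).hasDerivWithinAt) le_rfl (fun x hx => by
      obtain ⟨h1, h2⟩ := h x ⟨hx.1, hx.2.le⟩
      have h3 : deriv L ⟨x, t⟩ = deriv L ⟨x, t⟩ / L ⟨x, t⟩ * L ⟨x, t⟩ := by
        field_simp
      rw [add_zero, h3, norm_mul]
      exact mul_le_mul_of_nonneg_right h2 (norm_nonneg _)) x1 ⟨hσ, le_rfl⟩
  rwa [gronwallBound_ε0] at hg

theorem invl : Pool.Agent.N782.GN.S_INVL := by
  obtain ⟨K, hK0, hK⟩ := DK_one
  set S : ℝ := 1000 + 3 * K with hS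
  set A : ℝ := S ^ 2 with hAdef
  have hS1 : 1000 ≤ S := by linarith
  have hA1 : 1 ≤ A := by nlinarith
  have hA : 3 * K + 60 * (6 + Real.log A) ≤ A / 2 := by
    have h1 : Real.log A ≤ 2 * (S - 1) := by
      rw [hAdef, Real.log_pow]
      have := Real.log_le_sub_one_of_pos (show 0 < S by linarith)
      push_cast
      linarith
    nlinarith
  have hlA : 0 ≤ Real.log (7 * A) := Real.log_nonneg (by linarith)
  set B : ℝ := 6 + Real.log (7 * A) with hB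
  refine ⟨28 * A + 7 * B, by linarith, ?_⟩
  intro h hh t θ R L1 L2 hθ0 hθ1 hR hd1 he1 hb1 hd2 he2 hb2 σ hσ1 hσ2
  have H1 : Hy h L1 t (4 * θ) θ R := ⟨hd1, he1, hb1⟩
  have H2 : Hy (h * h : GaussianInt →* ℂ) L2 (2 * t) (8 * θ) θ R := ⟨hd2, he2, hb2⟩
  have hzf := fun (β τ : ℝ) => @zfree K A hK0 hK hA1 hA h hh L1 L2 t θ R H1 H2 hθ0 hθ1 hR β τ
  obtain ⟨hQ4, hlam⟩ := lam_le (A := 7 * A) (by linarith) hθ0 hθ1 hR
  have hloc := fun (η : ℝ) => @locL h hh L1 t (4 * θ) θ R η t H1 hθ0 hθ1 hR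
  have hRθ : 0 < R / θ := by positivity
  have hpow : ∀ y : ℝ, (R / θ) ^ y = Real.exp (Real.log (R / θ) * y) := fun y =>
    Real.rpow_def_of_pos hRθ y
  rw [hpow]
  generalize Real.log (R / θ) = Q at *
  have hQ0 : 0 < Q := by linarith
  have hA0 : 0 < A := by linarith
  have hB0 : 0 < B := by linarith
  set w1 : ℝ := θ / 2 / (7 * A * Q) with hw1
  have hw10 : 0 < w1 := by positivity
  have h7AQ : 28 ≤ 7 * A * Q := by nlinarith
  have hw1w : w1 ≤ θ / 2 / 28 := by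
    rw [hw1]
    exact div_le_div_of_nonneg_left (by positivity) (by norm_num) h7AQ
  have hσ3 : 1 - w1 / 2 ≤ σ := by
    have h1 : w1 / 2 = θ / (28 * A * Q) := by
      rw [hw1]
      field_simp
      norm_num
    have h2 : θ / ((28 * A + 7 * B) * Q) ≤ θ / (28 * A * Q) := by
      apply div_le_div_of_nonneg_left hθ0.le (by positivity)
      apply mul_le_mul_of_nonneg_right _ hQ0.le
      linarith
    linarith
  have hΛ : (1 + 1 / w1) ^ 2 ≤ Real.exp (B * Q) := by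
    have h1 : Real.log (R * (1 + 1 / w1) ^ 2) ≤ B * Q := by linarith
    have h2 : R * (1 + 1 / w1) ^ 2 ≤ Real.exp (B * Q) := by
      rw [← Real.log_le_iff_le_exp (by positivity)]
      exact h1
    have h3 : 0 ≤ (1 + 1 / w1) ^ 2 := by positivity
    nlinarith
  have hright : ∀ x : ℝ, 1 + w1 ≤ x → L1 ⟨x, t⟩ ≠ 0 ∧ ‖(L1 ⟨x, t⟩)⁻¹‖ ≤ Real.exp (B * Q) := by
    intro x hx
    have h1 : 1 < (⟨x, t⟩ : ℂ).re := by
      show 1 < x
      linarith
    have h2 : L1 ⟨x, t⟩ = LSeries (bb h) ⟨x, t⟩ := he1 _ h1 (by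
      show |t - t| < 4 * θ
      rw [sub_self, abs_zero]
      linarith)
    obtain ⟨i1, i2⟩ := inv_le hh h1
    rw [h2]
    refine ⟨i1, i2.trans (le_trans ?_ hΛ)⟩
    show (1 + 1 / (x - 1)) ^ 2 ≤ (1 + 1 / w1) ^ 2
    have h3 : 0 < x - 1 := by linarith
    have h4 : 1 / (x - 1) ≤ 1 / w1 := one_div_le_one_div_of_le hw10 (by linarith)
    exact pow_le_pow_left₀ (by positivity) (by linarith) 2
  rcases le_or_gt (1 + w1) σ with hc | hc
  · obtain ⟨h1, h2⟩ := hright σ hc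
    refine ⟨h1, h2.trans (Real.exp_le_exp.2 ?_)⟩
    nlinarith
  have hseg : ∀ x ∈ Icc σ (1 + w1), L1 ⟨x, t⟩ ≠ 0 ∧
      ‖deriv L1 ⟨x, t⟩ / L1 ⟨x, t⟩‖ ≤ 4 * B * Q / w1 := by
    intro x hx
    obtain ⟨h1, h2⟩ := (hloc w1 hw10 (by linarith) (by
      rw [sub_self, abs_zero]
      linarith)).2.2 ⟨x, t⟩ (by
      rw [mem_closedBall, dist_eq_norm, norm_row, abs_le]
      constructor <;> linarith [hx.1, hx.2]) (w1 / 2) (by linarith) (by
      intro ρ hρ hρ0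
      rw [mem_closedBall, dist_eq_norm] at hρ
      have h2 := (abs_im_le_norm (ρ - ⟨1 + w1, t⟩)).trans hρ
      rw [sub_im] at h2
      have h3 := hzf ρ.re ρ.im h2 hρ0
      have h4 := (le_abs_self _).trans (abs_re_le_norm ((⟨x, t⟩ : ℂ) - ρ))
      rw [sub_re] at h4
      have h5 : (⟨x, t⟩ : ℂ).re = x := rfl
      rw [h5] at h4
      linarith [hx.1])
    refine ⟨h1, h2.trans ?_⟩
    have hlam2 : Real.log (R * (1 + 1 / w1) ^ 2) ≤ B * Q := by linarith
    have e1 : Real.log (R * (1 + 1 / w1) ^ 2) * (3 / 2) / (w1 / 2) ≤ 3 * (B * Q / w1) := by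
      calc Real.log (R * (1 + 1 / w1) ^ 2) * (3 / 2) / (w1 / 2) ≤ (B * Q) * (3 / 2) / (w1 / 2) := by
            gcongr
        _ = 3 * (B * Q / w1) := by
          field_simp
    have e2 : 12 * (Real.log (R * (1 + 1 / w1) ^ 2) + 1) / (θ / 2) ≤ B * Q / w1 := by
      calc 12 * (Real.log (R * (1 + 1 / w1) ^ 2) + 1) / (θ / 2) ≤ 12 * (B * Q) / (θ / 2) := by
            gcongr
        _ ≤ 12 * (B * Q) / (12 * w1) := by
          apply div_le_div_of_nonneg_left (by positivity) (by positivity)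
          linarith
        _ = B * Q / w1 := by
          field_simp
    have e3 : 4 * B * Q / w1 = 3 * (B * Q / w1) + B * Q / w1 := by ring
    rw [e3]
    exact add_le_add e1 e2
  have hdf : ∀ x ∈ Icc σ (1 + w1), DifferentiableAt ℂ L1 ⟨x, t⟩ := by
    intro x hx
    apply hd1.differentiableAt
    apply (isOpen_reg t (4 * θ) (1 - 4 * θ)).mem_nhds
    refine ⟨?_, ?_⟩
    · show 1 - 4 * θ < x
      linarith [hx.1]
    · show |t - t| < 4 * θ
      rw [sub_self, abs_zero]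
      linarith
  have hg := grow hc.le hdf hseg
  obtain ⟨k1, k2⟩ := hright (1 + w1) le_rfl
  have k3 := (hseg σ ⟨le_rfl, hc.le⟩).1
  refine ⟨k3, ?_⟩
  have hexp2 : Real.exp (4 * B * Q / w1 * (1 + w1 - σ)) ≤ Real.exp (6 * B * Q) := by
    apply Real.exp_le_exp.2
    have h1 : 4 * B * Q / w1 * (1 + w1 - σ) ≤ 4 * B * Q / w1 * (3 / 2 * w1) :=
      mul_le_mul_of_nonneg_left (by linarith) (by positivity)
    have h2 : 4 * B * Q / w1 * (3 / 2 * w1) = 6 * B * Q := by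
      field_simp
      norm_num
    linarith
  have k4 : 0 < ‖L1 ⟨σ, t⟩‖ := norm_pos_iff.2 k3
  have k5 : 0 < ‖L1 ⟨1 + w1, t⟩‖ := norm_pos_iff.2 k1
  have k6 : ‖L1 ⟨1 + w1, t⟩‖ ≤ ‖L1 ⟨σ, t⟩‖ * Real.exp (6 * B * Q) :=
    hg.trans (mul_le_mul_of_nonneg_left hexp2 (norm_nonneg _))
  rw [norm_inv] at k2 ⊢
  have k7 : ‖L1 ⟨σ, t⟩‖⁻¹ ≤ Real.exp (6 * B * Q) * ‖L1 ⟨1 + w1, t⟩‖⁻¹ := by
    rw [inv_eq_one_div, div_le_iff₀ k4]
    have h1 : Real.exp (6 * B * Q) * ‖L1 ⟨1 + w1, t⟩‖⁻¹ * ‖L1 ⟨σ, t⟩‖ =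
        (‖L1 ⟨σ, t⟩‖ * Real.exp (6 * B * Q)) / ‖L1 ⟨1 + w1, t⟩‖ := by
      ring
    rw [h1, le_div_iff₀ k5, one_mul]
    exact k6
  refine k7.trans ?_
  calc Real.exp (6 * B * Q) * ‖L1 ⟨1 + w1, t⟩‖⁻¹ ≤ Real.exp (6 * B * Q) * Real.exp (B * Q) :=
        mul_le_mul_of_nonneg_left k2 (Real.exp_pos _).le
    _ = Real.exp (7 * B * Q) := by
      rw [← Real.exp_add]
      congr 1
      ring
    _ ≤ Real.exp (Q * (28 * A + 7 * B)) := by
      apply Real.exp_le_exp.2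
      nlinarith

end Pool.Agent.N487.GN
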