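import Pool.Agent.N487.GN.InvA

/-!
Project GN (helper782), leaf PK: the multiplicative function `χ(z) (z/|z|)^k`, partial sums, classes (helper487).
-/

set_option autoImplicit false

open Complex Finset

namespace Pool.Agent.N487.GN

open Pool.Agent.H304R3.HK Pool.Agent.N782.GN

/-- `ph k 0` is a power of `z / |z|` -/
theorem ph_zpow (k : ℤ) {z : ZI} (hz : z ≠ 0) : ph k 0 z = ((z : ℂ) / ‖(z : ℂ)‖) ^ k := by
  have hz' : (z : ℂ) ≠ 0 := fun h => hz (GaussianInt.toComplex_eq_zero.1 h)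
  have hn : (‖(z : ℂ)‖ : ℂ) ≠ 0 := by
    exact_mod_cast (norm_pos_iff.2 hz').ne'
  have h1 : (z : ℂ) / ‖(z : ℂ)‖ = Complex.exp (Complex.arg (z : ℂ) * I) := by
    rw [div_eq_iff hn, mul_comm]
    exact (Complex.norm_mul_exp_arg_mul_I _).symm
  rw [h1, ← Complex.exp_int_mul]
  unfold ph
  congr 1
  push_cast
  ring

theorem ph_mul (k : ℤ) {z w : ZI} (hz : z ≠ 0) (hw : w ≠ 0) :
    ph k 0 (z * w) = ph k 0 z * ph k 0 w := by
  rw [ph_zpow k hz, ph_zpow k hw, ph_zpow k (mul_ne_zero hz hw), ← mul_zpow]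
  congr 1
  rw [GaussianInt.toComplex_mul, norm_mul]
  push_cast
  rw [mul_div_mul_comm]

theorem ph_one (k : ℤ) : ph k 0 1 = 1 := by
  rw [ph_zpow k one_ne_zero, GaussianInt.toComplex_one]
  simp

theorem nz_pos {z : ZI} (hz : z ≠ 0) : 0 < nz z := by
  rw [nz_eq]
  by_contra hcon
  push Not at hcon
  have h1 : (z.re : ℝ) = 0 := by nlinarith [sq_nonneg (z.re : ℝ), sq_nonneg (z.im : ℝ)]
  have h2 : (z.im : ℝ) = 0 := by nlinarith [sq_nonneg (z.re : ℝ), sq_nonneg (z.im : ℝ)]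
  apply hz
  ext
  · exact_mod_cast h1
  · exact_mod_cast h2

/-- the twist by the norm -/
theorem ph_tau (k : ℤ) (τ : ℝ) {z : ZI} (hz : z ≠ 0) :
    ph k τ z = ph k 0 z * ((nz z : ℝ) : ℂ) ^ (-(τ : ℂ) * I) := by
  have h1 := nz_pos hz
  rw [Complex.cpow_def_of_ne_zero (by exact_mod_cast h1.ne'), ← Complex.ofReal_log h1.le]
  unfold ph
  rw [← Complex.exp_add]
  congr 1
  push_cast
  ring

open Classical in
/-- the completely multiplicative function -/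
noncomputable def hk (χ : ZI →* ℂ) (k : ℤ) : ZI →* ℂ where
  toFun z := if z = 0 then 0 else χ z * ph k 0 z
  map_one' := by
    rw [if_neg one_ne_zero, map_one, ph_one, mul_one]
  map_mul' := by
    intro a b
    by_cases ha : a = 0
    · simp [ha]
    by_cases hb : b = 0
    · simp [hb]
    rw [if_neg ha, if_neg hb, if_neg (mul_ne_zero ha hb), map_mul, ph_mul k ha hb]
    ring

theorem hk_of (χ : ZI →* ℂ) (k : ℤ) {z : ZI} (hz : z ≠ 0) : hk χ k z = χ z * ph k 0 z := by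
  show (if z = 0 then (0 : ℂ) else χ z * ph k 0 z) = _
  rw [if_neg hz]

theorem hk_zero (χ : ZI →* ℂ) (k : ℤ) : hk χ k 0 = 0 := by
  show (if (0 : ZI) = 0 then (0 : ℂ) else χ 0 * ph k 0 0) = _
  rw [if_pos rfl]

theorem norm_chi_le {q : ℕ} {χ : ZI →* ℂ} (H : Chi q χ) (z : ZI) : ‖χ z‖ ≤ 1 := by
  by_cases h : IsCoprime z ((q : ℕ) : ZI)
  · exact (H.nrm z h).le
  · have : χ z = 0 := by
      by_contra hcon
      exact h ((H.supp z).1 hcon)
    rw [this, norm_zero]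
    exact zero_le_one

theorem norm_hk_le {q : ℕ} {χ : ZI →* ℂ} (H : Chi q χ) (k : ℤ) (z : ZI) : ‖hk χ k z‖ ≤ 1 := by
  by_cases hz : z = 0
  · rw [hz, hk_zero, norm_zero]
    exact zero_le_one
  · rw [hk_of χ k hz, norm_mul, norm_ph, mul_one]
    exact norm_chi_le H z

theorem UH_hk {q : ℕ} {χ : ZI →* ℂ} (H : Chi q χ) (k : ℤ) (hi : hk χ k ⟨0, 1⟩ = 1) : UH (hk χ k) where
  h0 := hk_zero χ k
  hb := norm_hk_le H k
  hi := hi

/-- the square of a character -/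
theorem Chi_sq {q : ℕ} {χ : ZI →* ℂ} (H : Chi q χ) : Chi q (χ * χ) where
  per := by
    intro a b h
    rw [MonoidHom.mul_apply, MonoidHom.mul_apply, H.per a b h]
  supp := by
    intro a
    rw [MonoidHom.mul_apply, mul_self_ne_zero]
    exact H.supp a
  nrm := by
    intro a h
    rw [MonoidHom.mul_apply, norm_mul, H.nrm a h, one_mul]

theorem hk_sq (χ : ZI →* ℂ) (k : ℤ) : hk χ k * hk χ k = hk (χ * χ) (2 * k) := by
  ext z
  rw [MonoidHom.mul_apply]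
  by_cases hz : z = 0
  · rw [hz, hk_zero, hk_zero, mul_zero]
  · rw [hk_of χ k hz, hk_of _ _ hz, MonoidHom.mul_apply, ph_zpow k hz, ph_zpow (2 * k) hz]
    have h1 : (z : ℂ) / ‖(z : ℂ)‖ ≠ 0 := by
      have hz' : (z : ℂ) ≠ 0 := fun h => hz (GaussianInt.toComplex_eq_zero.1 h)
      apply div_ne_zero hz'
      exact_mod_cast (norm_pos_iff.2 hz').ne'
    rw [two_mul, zpow_add₀ h1]
    ring

/-! ### Sums over norms -/

theorem natAbs_eq {z : ZI} : ((z.norm.natAbs : ℕ) : ℝ) = nz z := by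
  unfold nz
  have h1 : 0 ≤ z.norm := M4.norm_nn z
  have h2 : ((z.norm.natAbs : ℕ) : ℤ) = z.norm := Int.natAbs_of_nonneg h1
  have h3 : (((z.norm.natAbs : ℕ) : ℤ) : ℝ) = ((z.norm : ℤ) : ℝ) := by rw [h2]
  rw [← h3, Int.cast_natCast]

theorem sum_norm (f : ZI → ℂ) (c : ℕ → ℂ) (x : ℝ) :
    ∑ n ∈ Icc 1 ⌊x⌋₊, bb f n * c n = (1 / 4 : ℂ) * ∑ z ∈ bl x, f z * c z.norm.natAbs := by
  classical
  have h1 : ∀ z ∈ bl x, z.norm.natAbs ∈ Icc 1 ⌊x⌋₊ := by
    intro z hz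
    rw [mem_bl] at hz
    have h2 := nz_pos hz.1
    rw [← natAbs_eq] at h2
    have h3 : 0 < z.norm.natAbs := by exact_mod_cast h2
    rw [mem_Icc]
    refine ⟨h3, Nat.le_floor ?_⟩
    rw [natAbs_eq]
    exact hz.2
  rw [← Finset.sum_fiberwise_of_maps_to h1, Finset.mul_sum]
  apply Finset.sum_congr rfl
  intro n hn
  rw [mem_Icc] at hn
  have hT : (bl x).filter (fun z => z.norm.natAbs = n) = M4.T n := by
    ext z
    rw [mem_filter, mem_bl, M4.mem_T]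
    constructor
    · rintro ⟨-, h⟩
      rw [← h, Int.natAbs_of_nonneg (M4.norm_nn z)]
    · intro h
      have h2 : z.norm.natAbs = n := by rw [h]; simp
      refine ⟨⟨?_, ?_⟩, h2⟩
      · rintro rfl
        rw [Zsqrtd.norm_zero] at h
        have : n = 0 := by exact_mod_cast h.symm
        omega
      · rw [← natAbs_eq, h2]
        have hx : 0 ≤ x := by
          by_contra hcon
          push Not at hcon
          rw [Nat.floor_of_nonpos hcon.le] at hn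
          omega
        exact (Nat.le_floor_iff hx).1 hn.2
  rw [hT, M4.bb_eq, mul_assoc, Finset.sum_mul]
  congr 1
  apply Finset.sum_congr rfl
  intro z hz
  rw [M4.mem_T] at hz
  have : z.norm.natAbs = n := by rw [hz]; simp
  rw [this]

/-- the twisted partial sums of the coefficients -/
theorem ds_eq (χ : ZI →* ℂ) (k : ℤ) (x t : ℝ) :
    ds (bb (hk χ k)) x t = (1 / 4 : ℂ) * ∑ z ∈ bl x, χ z * ph k t z := by
  unfold ds
  rw [sum_norm (fun z => hk χ k z) (fun n => (n : ℂ) ^ (-(t : ℂ) * I)) x]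
  congr 1
  apply Finset.sum_congr rfl
  intro z hz
  rw [mem_bl] at hz
  rw [hk_of χ k hz.1, ph_tau k t hz.1, mul_assoc]
  congr 3
  rw [← natAbs_eq]
  simp

open Classical in
/-- representatives -/
noncomputable def Rq (q : ℕ) : Finset ZI :=
  ((range q) ×ˢ (range q)).image fun p => (⟨(p.1 : ℤ), (p.2 : ℤ)⟩ : ZI)

theorem card_Rq (q : ℕ) : (Rq q).card ≤ q ^ 2 := by
  classical
  unfold Rq
  refine card_image_le.trans ?_
  rw [card_product, card_range, pow_two]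

/-- reduction modulo `q` -/
def red (q : ℕ) (z : ZI) : ZI := ⟨z.re % q, z.im % q⟩

theorem mem_Rq {q : ℕ} (hq : 1 ≤ q) {r : ZI} :
    r ∈ Rq q ↔ 0 ≤ r.re ∧ r.re < q ∧ 0 ≤ r.im ∧ r.im < q := by
  classical
  unfold Rq
  rw [mem_image]
  constructor
  · rintro ⟨p, hp, rfl⟩
    rw [mem_product, mem_range, mem_range] at hp
    simp only
    omega
  · rintro ⟨h1, h2, h3, h4⟩
    refine ⟨(r.re.toNat, r.im.toNat), ?_, ?_⟩
    · rw [mem_product, mem_range, mem_range]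
      simp only
      omega
    · ext
      · simp only
        omega
      · simp only
        omega

theorem red_mem {q : ℕ} (hq : 1 ≤ q) (z : ZI) : red q z ∈ Rq q := by
  rw [mem_Rq hq]
  have h : (0 : ℤ) < q := by exact_mod_cast hq
  unfold red
  simp only
  exact ⟨Int.emod_nonneg _ h.ne', Int.emod_lt_of_pos _ h, Int.emod_nonneg _ h.ne',
    Int.emod_lt_of_pos _ h⟩

theorem dvd_iff (q : ℕ) (z r : ZI) :
    ((q : ℕ) : ZI) ∣ z - r ↔ (q : ℤ) ∣ z.re - r.re ∧ (q : ℤ) ∣ z.im - r.im := by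
  have h : ((q : ℕ) : ZI) = (((q : ℕ) : ℤ) : ZI) := by push_cast; rfl
  rw [h, Zsqrtd.intCast_dvd, Zsqrtd.re_sub, Zsqrtd.im_sub]

theorem red_eq_iff {q : ℕ} (hq : 1 ≤ q) {z r : ZI} (hr : r ∈ Rq q) :
    red q z = r ↔ ((q : ℕ) : ZI) ∣ z - r := by
  rw [mem_Rq hq] at hr
  rw [dvd_iff]
  obtain ⟨h1, h2, h3, h4⟩ := hr
  constructor
  · rintro rfl
    unfold red
    simp only
    exact ⟨Int.dvd_self_sub_emod, Int.dvd_self_sub_emod⟩
  · rintro ⟨a, b⟩
    unfold red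
    ext
    · simp only
      have e := (Int.emod_eq_emod_iff_emod_sub_eq_zero).2 (Int.emod_eq_zero_of_dvd a)
      rw [e]
      exact Int.emod_eq_of_lt h1 h2
    · simp only
      have e := (Int.emod_eq_emod_iff_emod_sub_eq_zero).2 (Int.emod_eq_zero_of_dvd b)
      rw [e]
      exact Int.emod_eq_of_lt h3 h4

/-- splitting into classes -/
theorem split {q : ℕ} (hq : 1 ≤ q) {χ : ZI →* ℂ} (H : Chi q χ) (k : ℤ) (t x V : ℝ)
    (hV : ∀ r : ZI, ‖∑ z ∈ cls q r x, ph k t z‖ ≤ V) :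
    ‖∑ z ∈ bl x, χ z * ph k t z‖ ≤ q ^ 2 * V := by
  classical
  rw [← Finset.sum_fiberwise_of_maps_to (t := Rq q) (g := red q) (fun z _ => red_mem hq z)]
  have hV0 : 0 ≤ V := (norm_nonneg _).trans (hV 0)
  have h1 : ∀ r ∈ Rq q, ‖∑ z ∈ (bl x).filter (fun z => red q z = r), χ z * ph k t z‖ ≤ V := by
    intro r hr
    have e1 : (bl x).filter (fun z => red q z = r) = cls q r x := by
      unfold cls
      apply filter_congr
      intro z _
      exact red_eq_iff hq hr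
    rw [e1]
    have e2 : ∑ z ∈ cls q r x, χ z * ph k t z = χ r * ∑ z ∈ cls q r x, ph k t z := by
      rw [Finset.mul_sum]
      apply Finset.sum_congr rfl
      intro z hz
      unfold cls at hz
      rw [mem_filter] at hz
      rw [H.per z r hz.2]
    rw [e2, norm_mul]
    calc ‖χ r‖ * ‖∑ z ∈ cls q r x, ph k t z‖ ≤ 1 * V :=
          mul_le_mul (norm_chi_le H r) (hV r) (norm_nonneg _) zero_le_one
      _ = V := one_mul V
  refine (norm_sum_le _ _).trans ((Finset.sum_le_sum h1).trans ?_)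
  rw [Finset.sum_const, nsmul_eq_mul]
  apply mul_le_mul_of_nonneg_right _ hV0
  exact_mod_cast card_Rq q

/-! ### Multiplication by `i` -/

theorem mu_i (z : ZI) : mu ((⟨0, 1⟩ : ZI) * z) = mu z := by
  classical
  have ha : Associated z ((⟨0, 1⟩ : ZI) * z) := M4.ii_assoc z
  unfold mu
  have h1 : Squarefree ((⟨0, 1⟩ : ZI) * z) ↔ Squarefree z := ha.squarefree_iff.symm
  have h2 : (UniqueFactorizationMonoid.factors ((⟨0, 1⟩ : ZI) * z)).card =
      (UniqueFactorizationMonoid.factors z).card :=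
    (Multiset.card_eq_card_of_rel (UniqueFactorizationMonoid.factors_rel_of_associated ha)).symm
  rw [h2]
  by_cases h : Squarefree z
  · rw [if_pos (h1.2 h), if_pos h]
  · rw [if_neg (fun h' => h (h1.1 h')), if_neg h]

theorem nz_i (z : ZI) : nz ((⟨0, 1⟩ : ZI) * z) = nz z := by
  rw [nz_eq, nz_eq, Zsqrtd.re_mul, Zsqrtd.im_mul]
  push_cast
  ring

theorem sum_i (F : ZI → ℂ) (x : ℝ) : ∑ z ∈ bl x, F ((⟨0, 1⟩ : ZI) * z) = ∑ z ∈ bl x, F z := by
  have hne : (⟨0, 1⟩ : ZI) ≠ 0 := by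
    intro h
    rw [Zsqrtd.ext_iff] at h
    simp at h
  apply Finset.sum_bij (fun z _ => (⟨0, 1⟩ : ZI) * z)
  · intro z hz
    rw [mem_bl] at hz ⊢
    exact ⟨mul_ne_zero hne hz.1, by rw [nz_i]; exact hz.2⟩
  · intro a _ b _ h
    exact mul_left_cancel₀ hne h
  · intro b hb
    rw [mem_bl] at hb
    have e : (⟨0, 1⟩ : ZI) * ((-⟨0, 1⟩ : ZI) * b) = b := by
      rw [← mul_assoc]
      have : (⟨0, 1⟩ : ZI) * (-⟨0, 1⟩ : ZI) = 1 := by
        ext <;> simp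
      rw [this, one_mul]
    refine ⟨(-⟨0, 1⟩ : ZI) * b, ?_, e⟩
    rw [mem_bl]
    refine ⟨mul_ne_zero (neg_ne_zero.2 hne) hb.1, ?_⟩
    have h1 := nz_i ((-⟨0, 1⟩ : ZI) * b)
    rw [e] at h1
    rw [← h1]
    exact hb.2
  · intro a _
    rfl

theorem sum_mu_zero {χ : ZI →* ℂ} {k : ℤ} (hi : hk χ k ⟨0, 1⟩ ≠ 1) (x : ℝ) :
    ∑ z ∈ bl x, (mu z : ℂ) * hk χ k z = 0 := by
  have h1 := sum_i (fun z => (mu z : ℂ) * hk χ k z) x
  have h2 : ∑ z ∈ bl x, (mu ((⟨0, 1⟩ : ZI) * z) : ℂ) * hk χ k ((⟨0, 1⟩ : ZI) * z) =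
      hk χ k ⟨0, 1⟩ * ∑ z ∈ bl x, (mu z : ℂ) * hk χ k z := by
    rw [Finset.mul_sum]
    apply Finset.sum_congr rfl
    intro z _
    rw [mu_i, map_mul]
    ring
  rw [h2] at h1
  have h3 : (hk χ k ⟨0, 1⟩ - 1) * ∑ z ∈ bl x, (mu z : ℂ) * hk χ k z = 0 := by
    rw [sub_mul, one_mul, h1, sub_self]
  rcases mul_eq_zero.1 h3 with h4 | h4
  · exact absurd (sub_eq_zero.1 h4) hi
  · exact h4

theorem sum_mu_eq (χ : ZI →* ℂ) (k : ℤ) (x : ℝ) :
    ∑ z ∈ bl x, (mu z : ℂ) * (χ z * ph k 0 z) = ∑ z ∈ bl x, (mu z : ℂ) * hk χ k z := by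
  apply Finset.sum_congr rfl
  intro z hz
  rw [mem_bl] at hz
  rw [hk_of χ k hz.1]

theorem sum_bm (h : ZI → ℂ) (x : ℝ) :
    ∑ z ∈ bl x, (mu z : ℂ) * h z = 4 * ∑ n ∈ Icc 1 ⌊x⌋₊, bm h n := by
  have h1 := sum_norm (fun z => (mu z : ℂ) * h z) (fun _ => 1) x
  simp only [mul_one] at h1
  unfold bm
  rw [h1]
  ring

theorem card_bl {x : ℝ} (hx : 1 ≤ x) : ((bl x).card : ℝ) ≤ 9 * x := by
  classical
  have h1 : (bl x).card ≤ (2 * ⌊Real.sqrt x⌋₊ + 1) * (2 * ⌊Real.sqrt x⌋₊ + 1) := by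
    unfold bl
    refine (card_filter_le _ _).trans (card_image_le.trans ?_)
    rw [card_product, Int.card_Icc]
    apply le_of_eq
    congr 1 <;> omega
  have h2 : ((bl x).card : ℝ) ≤ (2 * (⌊Real.sqrt x⌋₊ : ℝ) + 1) * (2 * (⌊Real.sqrt x⌋₊ : ℝ) + 1) := by
    exact_mod_cast h1
  have h3 : (⌊Real.sqrt x⌋₊ : ℝ) ≤ Real.sqrt x := Nat.floor_le (Real.sqrt_nonneg _)
  have h4 : 1 ≤ Real.sqrt x := Real.one_le_sqrt.2 hx
  have h5 : Real.sqrt x * Real.sqrt x = x := Real.mul_self_sqrt (by linarith)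
  nlinarith

theorem trivial_bd {q : ℕ} {χ : ZI →* ℂ} (H : Chi q χ) (k : ℤ) {x : ℝ} (hx : 1 ≤ x) :
    ‖∑ z ∈ bl x, (mu z : ℂ) * (χ z * ph k 0 z)‖ ≤ 9 * x := by
  refine (norm_sum_le _ _).trans (le_trans (Finset.sum_le_card_nsmul _ _ 1 ?_) ?_)
  · intro z _
    rw [norm_mul, norm_mul, norm_ph, mul_one, Complex.norm_real, Real.norm_eq_abs]
    exact mul_le_one₀ (abs_mu_le z) (norm_nonneg _) (norm_chi_le H z)
  · rw [nsmul_eq_mul, mul_one]
    exact card_bl hx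

end Pool.Agent.N487.GN
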