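import Pool.Agent.N487.GN.PkA

/-!
Project GN (helper782), leaf PK: the Moebius function twisted by `χ(z) (z/|z|)^k` (helper487).
-/

set_option autoImplicit false

open Complex Finset Filter Topology

namespace Pool.Agent.N487.GN

open Pool.Agent.H304R3.HK Pool.Agent.N782.GN

lemma ev_log {c β : ℝ} (hc : 0 < c) (hβ : 0 < β) : ∀ᶠ x : ℝ in atTop, Real.log x ≤ c * x ^ β := by
  have h1 := (isLittleO_log_rpow_atTop hβ).bound hc
  filter_upwards [h1, eventually_ge_atTop 1] with x h2 h3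
  rw [Real.norm_of_nonneg (Real.log_nonneg h3),
    Real.norm_of_nonneg (Real.rpow_nonneg (by linarith) _)] at h2
  exact h2

lemma dom (N c β : ℝ) (hc : 0 < c) (hβ : 0 < β) : ∀ᶠ x : ℝ in atTop, x ^ N ≤ Real.exp (c * x ^ β) := by
  filter_upwards [ev_log (show 0 < c / (|N| + 1) by positivity) hβ, eventually_ge_atTop 1] with x h1 h2
  rw [Real.rpow_def_of_pos (by linarith)]
  apply Real.exp_le_exp.2
  have h3 : 0 ≤ Real.log x := Real.log_nonneg h2
  have h4 : Real.log x * N ≤ Real.log x * (|N| + 1) :=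
    mul_le_mul_of_nonneg_left (by linarith [le_abs_self N]) h3
  have h5 : Real.log x * (|N| + 1) ≤ c / (|N| + 1) * x ^ β * (|N| + 1) :=
    mul_le_mul_of_nonneg_right h1 (by positivity)
  have h6 : c / (|N| + 1) * x ^ β * (|N| + 1) = c * x ^ β := by
    field_simp
  linarith

/-- the conditions on the large parameter -/
structure Good (a b b2 T₀ CG CI m : ℝ) (A B : ℕ) (Λ : ℝ) : Prop where
  one : 8 ≤ Λ
  eT : T₀ ≤ Real.exp Λ
  sp : Λ ^ (2 * B : ℝ) ≤ Real.exp (1 / 2 * Λ ^ (b - a))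
  ba : 4 ≤ Λ ^ (b - a)
  an : 20 ≤ Λ ^ a
  cg : 3 * CG ≤ Λ
  ci : Real.log Λ ≤ 1 / (40 * CI) * Λ ^ (b2 - b)
  t3 : Λ ^ (2 * A + 2 + 5 * CI : ℝ) ≤ Real.exp (1 / m * Λ ^ (1 - b2))
  t4 : Λ ^ (2 * A + 3 + 5 * CI : ℝ) ≤ Real.exp (1 * Λ ^ (1 : ℝ))
  t2 : Λ ^ (A + 1 : ℝ) ≤ Real.exp (1 / (2 * m) * Λ ^ (1 : ℝ))

lemma ev_good {a b b2 T₀ CG CI m : ℝ} (A B : ℕ) (ha : 0 < a) (hab : a < b) (hb : b < b2) (hb2 : b2 < 1)
    (hCI : 1 ≤ CI) (hm : 1 ≤ m) : ∀ᶠ Λ : ℝ in atTop, Good a b b2 T₀ CG CI m A B Λ := by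
  have e1 : ∀ᶠ Λ : ℝ in atTop, 4 ≤ Λ ^ (b - a) :=
    (tendsto_rpow_atTop (show 0 < b - a by linarith)).eventually_ge_atTop 4
  have e2 : ∀ᶠ Λ : ℝ in atTop, 20 ≤ Λ ^ a := (tendsto_rpow_atTop ha).eventually_ge_atTop 20
  have e3 : ∀ᶠ Λ : ℝ in atTop, T₀ ≤ Real.exp Λ := Real.tendsto_exp_atTop.eventually_ge_atTop T₀
  filter_upwards [eventually_ge_atTop 8, e3, dom (2 * B) (1 / 2) (b - a) (by norm_num) (by linarith),
    e1, e2, eventually_ge_atTop (3 * CG),
    ev_log (show 0 < 1 / (40 * CI) by positivity) (show 0 < b2 - b by linarith),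
    dom (2 * A + 2 + 5 * CI) (1 / m) (1 - b2) (by positivity) (by linarith),
    dom (2 * A + 3 + 5 * CI) 1 1 (by norm_num) (by norm_num),
    dom (A + 1) (1 / (2 * m)) 1 (by positivity) (by norm_num)] with Λ h1 h2 h3 h4 h5 h6 h7 h8 h9 h10
  exact ⟨h1, h2, h3, h4, h5, h6, h7, h8, h9, h10⟩

section
variable {a b b2 T₀ CG CI CE m Λ : ℝ} {A B : ℕ}

/-- the continuation and its growth -/
lemma gr (ha : 0 < a) (hab : a < b) (hb1 : b < 1)
    (hE : ∀ (T Y : ℝ) (k : ℤ) (τ : ℝ) (q : ℕ) (r : ZI), T₀ ≤ T → Real.exp ((Real.log T) ^ b) ≤ Y → k ≠ 0 →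
      |(k : ℝ)| ≤ T → |τ| ≤ T → 1 ≤ q → (q : ℝ) ≤ (Real.log T) ^ B →
      ‖∑ t ∈ cls q r Y, ph k τ t‖ ≤ Y ^ (1 - (Real.log T) ^ (-a) : ℝ))
    (hEL : ∀ (k : ℤ) (τ : ℝ) (q : ℕ) (r : ZI) (Y : ℝ), 1 ≤ q → 1 ≤ Y →
      ‖∑ t ∈ cls q r Y, ph k τ t - (if k = 0 then ((Real.pi / (q : ℝ) ^ 2 : ℝ) : ℂ) *
        ((Y : ℂ) ^ (1 - (τ : ℂ) * Complex.I) / (1 - (τ : ℂ) * Complex.I)) else 0)‖ ≤
        CE * (1 + |(k : ℝ)| + |τ|) * Real.sqrt Y)
    (hG : ∀ (f : ℕ → ℂ) (T x₀ η₀ C₀ : ℝ), 3 ≤ T → 3 ≤ x₀ → 0 < η₀ → η₀ ≤ 1 / 10 →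
      f 0 = 0 → (∀ n : ℕ, ‖f n‖ ≤ n.divisors.card) → (∀ x : ℝ, 1 ≤ x → ‖ds f x 0‖ ≤ C₀ * x ^ (9 / 10 : ℝ)) →
      (∀ x t : ℝ, x₀ ≤ x → |t| ≤ T → ‖ds f x t‖ ≤ x ^ (1 - η₀)) →
      ∃ L : ℂ → ℂ, DifferentiableOn ℂ L {s | 9 / 10 < s.re} ∧ (∀ s : ℂ, 1 < s.re → L s = LSeries f s) ∧
        ∀ s : ℂ, 1 - min (η₀ / 2) (1 / Real.log x₀) ≤ s.re → s.re ≤ 3 → |s.im| ≤ T →
          ‖L s‖ ≤ CG * ((Real.log x₀) ^ 2 + 1 / η₀))
    (hCE : 0 < CE) (hCG : 1 ≤ CG)
    (hgood : Good a b b2 T₀ CG CI m A B Λ) {q : ℕ} {χ : ZI →* ℂ} {k : ℤ} (hq : 1 ≤ q)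
    (hqL : (q : ℝ) ≤ Λ ^ B) (H : Chi q χ) (hk0 : k ≠ 0) (hkT : |(k : ℝ)| ≤ Real.exp Λ)
    (hU : UH (hk χ k)) :
    ∃ L : ℂ → ℂ, DifferentiableOn ℂ L {s | 9 / 10 < s.re} ∧
      (∀ s : ℂ, 1 < s.re → L s = LSeries (bb (hk χ k)) s) ∧
      ∀ s : ℂ, 1 - Λ ^ (-b) ≤ s.re → s.re ≤ 3 → |s.im| ≤ Real.exp Λ → ‖L s‖ ≤ Λ ^ (3 : ℕ) := by
  have hΛ8 := hgood.one
  have hΛ0 : 0 < Λ := by linarith
  have hΛ1 : 1 ≤ Λ := by linarith
  have hlogT : Real.log (Real.exp Λ) = Λ := Real.log_exp Λ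
  have hlogx : Real.log (Real.exp (Λ ^ b)) = Λ ^ b := Real.log_exp _
  have hLg := lg_bb (hk χ k) hU
  have hq1 : (1 : ℝ) ≤ q := by exact_mod_cast hq
  have hexp8 : 3 ≤ Real.exp Λ := by
    have := Real.add_one_le_exp Λ
    linarith
  have hab2 : Λ ^ a ≤ Λ ^ b := Real.rpow_le_rpow_of_exponent_le hΛ1 hab.le
  have hb20 : 20 ≤ Λ ^ b := hgood.an.trans hab2
  have hx3 : 3 ≤ Real.exp (Λ ^ b) := by
    have := Real.add_one_le_exp (Λ ^ b)
    linarith
  have hpa : 0 < Λ ^ a := Real.rpow_pos_of_pos hΛ0 _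
  have hna : Λ ^ (-a) = 1 / Λ ^ a := by rw [Real.rpow_neg hΛ0.le, one_div]
  have hna0 : 0 < Λ ^ (-a) := Real.rpow_pos_of_pos hΛ0 _
  have hna1 : Λ ^ (-a) ≤ 1 / 20 := by
    rw [hna]
    exact one_div_le_one_div_of_le (by norm_num) hgood.an
  obtain ⟨L, hL1, hL2, hL3⟩ := hG (bb (hk χ k)) (Real.exp Λ) (Real.exp (Λ ^ b)) (Λ ^ (-a) / 2)
    (q ^ 2 * (CE * (1 + |(k : ℝ)|))) hexp8 hx3 (by linarith) (by linarith) hLg.b0 hLg.bd (by
      intro x hx
      rw [ds_eq, norm_mul]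
      have h1 : ∀ r : ZI, ‖∑ z ∈ cls q r x, ph k 0 z‖ ≤ CE * (1 + |(k : ℝ)|) * Real.sqrt x := by
        intro r
        have := hEL k 0 q r x hq hx
        rw [if_neg hk0, sub_zero, abs_zero, add_zero] at this
        exact this
      have h2 := split hq H k 0 x _ h1
      have h3 : Real.sqrt x ≤ x ^ (9 / 10 : ℝ) := by
        rw [Real.sqrt_eq_rpow]
        exact Real.rpow_le_rpow_of_exponent_le hx (by norm_num)
      have h4 : ‖(1 / 4 : ℂ)‖ ≤ 1 := by norm_num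
      calc ‖(1 / 4 : ℂ)‖ * ‖∑ z ∈ bl x, χ z * ph k 0 z‖ ≤
          1 * (q ^ 2 * (CE * (1 + |(k : ℝ)|) * Real.sqrt x)) :=
            mul_le_mul h4 h2 (norm_nonneg _) zero_le_one
        _ ≤ q ^ 2 * (CE * (1 + |(k : ℝ)|)) * x ^ (9 / 10 : ℝ) := by
          rw [one_mul, ← mul_assoc]
          exact mul_le_mul_of_nonneg_left h3 (by positivity)) (by
      intro x t hx ht
      rw [ds_eq, norm_mul]
      have hx0 : 0 < x := (Real.exp_pos _).trans_le hx
      have h1 : ∀ r : ZI, ‖∑ z ∈ cls q r x, ph k t z‖ ≤ x ^ (1 - Λ ^ (-a) : ℝ) := by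
        intro r
        have := hE (Real.exp Λ) x k t q r hgood.eT (by rw [hlogT]; exact hx) hk0 hkT ht hq
          (by rw [hlogT]; exact hqL)
        rwa [hlogT] at this
      have h2 := split hq H k t x _ h1
      have h4 : ‖(1 / 4 : ℂ)‖ ≤ 1 := by norm_num
      have h5 : (q : ℝ) ^ 2 ≤ x ^ (Λ ^ (-a) / 2) := by
        have h6 : (q : ℝ) ^ 2 ≤ Λ ^ (2 * B : ℝ) := by
          have h7 : (q : ℝ) ^ 2 ≤ (Λ ^ B) ^ 2 := pow_le_pow_left₀ (by positivity) hqL 2
          refine h7.trans (le_of_eq ?_)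
          rw [← pow_mul, mul_comm B 2, ← Real.rpow_natCast]
          push_cast
          rfl
        refine (h6.trans hgood.sp).trans ?_
        rw [Real.rpow_def_of_pos hx0]
        apply Real.exp_le_exp.2
        have h8 : Λ ^ b ≤ Real.log x := by
          rw [Real.le_log_iff_exp_le hx0]
          exact hx
        have h9 : Λ ^ (b - a) = Λ ^ b * Λ ^ (-a) := by
          rw [← Real.rpow_add hΛ0]
          congr 1
        rw [h9]
        have h10 : Λ ^ b * Λ ^ (-a) ≤ Real.log x * Λ ^ (-a) :=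
          mul_le_mul_of_nonneg_right h8 hna0.le
        linarith
      calc ‖(1 / 4 : ℂ)‖ * ‖∑ z ∈ bl x, χ z * ph k t z‖ ≤
          1 * (q ^ 2 * x ^ (1 - Λ ^ (-a) : ℝ)) :=
            mul_le_mul h4 h2 (norm_nonneg _) zero_le_one
        _ ≤ x ^ (Λ ^ (-a) / 2) * x ^ (1 - Λ ^ (-a) : ℝ) := by
          rw [one_mul]
          exact mul_le_mul_of_nonneg_right h5 (Real.rpow_nonneg hx0.le _)
        _ = x ^ (1 - Λ ^ (-a) / 2) := by
          rw [← Real.rpow_add hx0]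
          congr 1
          ring)
  refine ⟨L, hL1, hL2, fun s h1 h2 h3 => ?_⟩
  have hnb : Λ ^ (-b) = 1 / Λ ^ b := by rw [Real.rpow_neg hΛ0.le, one_div]
  have hmin : Λ ^ (-b) ≤ min (Λ ^ (-a) / 2 / 2) (1 / Real.log (Real.exp (Λ ^ b))) := by
    rw [hlogx]
    apply le_min _ hnb.le
    have h4 : Λ ^ (-b) * 4 ≤ Λ ^ (-b) * Λ ^ (b - a) :=
      mul_le_mul_of_nonneg_left hgood.ba (Real.rpow_nonneg hΛ0.le _)
    have h5 : Λ ^ (-b) * Λ ^ (b - a) = Λ ^ (-a) := by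
      rw [← Real.rpow_add hΛ0]
      congr 1
      ring
    linarith
  refine (hL3 s (by linarith) h2 h3).trans ?_
  rw [hlogx]
  have h4 : Λ ^ b ≤ Λ := by
    have := Real.rpow_le_rpow_of_exponent_le hΛ1 hb1.le
    rwa [Real.rpow_one] at this
  have h5 : Λ ^ a ≤ Λ := hab2.trans h4
  have h6 : 1 / (Λ ^ (-a) / 2) = 2 * Λ ^ a := by
    rw [hna]
    field_simp
  rw [h6]
  have h7 : (Λ ^ b) ^ 2 ≤ Λ ^ 2 := pow_le_pow_left₀ (by positivity) h4 2
  calc CG * ((Λ ^ b) ^ 2 + 2 * Λ ^ a) ≤ CG * (Λ ^ 2 + 2 * Λ ^ 2) := by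
        apply mul_le_mul_of_nonneg_left _ (by linarith)
        nlinarith
    _ = 3 * CG * Λ ^ 2 := by ring
    _ ≤ Λ * Λ ^ 2 := mul_le_mul_of_nonneg_right hgood.cg (by positivity)
    _ = Λ ^ 3 := by ring

end

theorem pk (h0 : S_EL) (h1 : S_E) (h2 : S_GROW) (h3 : S_INVL) (h4 : S_PER) : S_PK := by
  intro A B D
  obtain ⟨CE, hCE, hEL⟩ := h0
  obtain ⟨a, b, T₀, ha, hab, hb1, hT₀, hE⟩ := h1 B
  obtain ⟨CG, hCG, hG⟩ := h2
  obtain ⟨CI, hCI, hI⟩ := h3
  obtain ⟨CP, hCP, hP⟩ := h4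
  set b2 : ℝ := (1 + b) / 2 with hb2
  have hbb2 : b < b2 := by linarith
  have hb21 : b2 < 1 := by linarith
  set m : ℝ := 2 * D + 2 with hm
  have hm1 : 2 ≤ m := by
    have : (0 : ℝ) ≤ D := Nat.cast_nonneg D
    linarith
  obtain ⟨Λ₀, hΛ₀⟩ := eventually_atTop.1
    (ev_good (T₀ := T₀) (CG := CG) (m := m) A B ha hab hbb2 hb21 hCI (by linarith))
  -- large Y
  have main : ∀ (Y : ℝ) (q : ℕ) (χ : ZI →* ℂ) (k : ℤ), 2 ≤ Y → Λ₀ ≤ m * Real.log Y → 1 ≤ q →
      (q : ℝ) ≤ (Real.log Y) ^ B → Chi q χ → k ≠ 0 → |(k : ℝ)| ≤ Y ^ D →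
      ‖∑ t ∈ bl Y, (mu t : ℂ) * (χ t * ph k 0 t)‖ ≤ 16 * CP * Y / (Real.log Y) ^ A := by
    intro Y q χ k hY hYL hq hqL H hk0 hkD
    rw [sum_mu_eq]
    have hlogY0 : 0 < Real.log Y := Real.log_pos (by linarith)
    by_cases hi : hk χ k ⟨0, 1⟩ = 1
    swap
    · rw [sum_mu_zero hi, norm_zero]
      positivity
    have hgood := hΛ₀ _ hYL
    set u : ℝ := Real.log Y with hu
    set Λ : ℝ := m * u with hΛ
    have hΛ8 := hgood.one
    have hΛ0 : 0 < Λ := by linarith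
    have hΛ1 : 1 ≤ Λ := by linarith
    have huΛ : u ≤ Λ := by nlinarith
    have hYe : Y = Real.exp u := (Real.exp_log (by linarith)).symm
    have hU := UH_hk H k hi
    have hi2 : hk (χ * χ) (2 * k) ⟨0, 1⟩ = 1 := by
      rw [← hk_sq, MonoidHom.mul_apply, hi, mul_one]
    have hU2 := UH_hk (Chi_sq H) (2 * k) hi2
    -- size of k
    have hYD : Y ^ D * 2 ≤ Real.exp Λ := by
      have h5 : Y ^ D * 2 ≤ Y ^ D * Y := mul_le_mul_of_nonneg_left hY (by positivity)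
      have h6 : Y ^ D * Y = Real.exp ((D + 1) * u) := by
        rw [← pow_succ, hYe, ← Real.exp_nat_mul]
        push_cast
        rfl
      rw [h6] at h5
      refine h5.trans (Real.exp_le_exp.2 ?_)
      have : (0 : ℝ) ≤ D := Nat.cast_nonneg D
      nlinarith
    have hk2 : |((2 * k : ℤ) : ℝ)| ≤ Real.exp Λ := by
      push_cast
      rw [abs_mul, abs_two]
      linarith
    have hk1 : |(k : ℝ)| ≤ Real.exp Λ := by
      have := abs_nonneg (k : ℝ)
      linarith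
    have hqΛ : (q : ℝ) ≤ Λ ^ B := hqL.trans (pow_le_pow_left₀ hlogY0.le huΛ B)
    obtain ⟨L1, d1, e1, g1⟩ := gr ha hab hb1 hE hEL hG hCE hCG hgood hq hqΛ H hk0 hk1 hU
    obtain ⟨L2, d2, e2, g2⟩ := gr ha hab hb1 hE hEL hG hCE hCG hgood hq hqΛ (Chi_sq H)
      (mul_ne_zero two_ne_zero hk0) hk2 hU2
    rw [← hk_sq] at e2
    -- parameters
    have hab2 : Λ ^ a ≤ Λ ^ b := Real.rpow_le_rpow_of_exponent_le hΛ1 hab.le
    have hb20 : 20 ≤ Λ ^ b := hgood.an.trans hab2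
    have hbb : Λ ^ b ≤ Λ ^ b2 := Real.rpow_le_rpow_of_exponent_le hΛ1 hbb2.le
    have hbΛ : Λ ^ b ≤ Λ := by
      have := Real.rpow_le_rpow_of_exponent_le hΛ1 hb1.le
      rwa [Real.rpow_one] at this
    have hnb : Λ ^ (-b) = 1 / Λ ^ b := by rw [Real.rpow_neg hΛ0.le, one_div]
    have hnb2 : Λ ^ (-b2) = 1 / Λ ^ b2 := by rw [Real.rpow_neg hΛ0.le, one_div]
    have hnb0 : 0 < Λ ^ (-b) := Real.rpow_pos_of_pos hΛ0 _
    have hnb20 : 0 < Λ ^ (-b2) := Real.rpow_pos_of_pos hΛ0 _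
    have hnb1 : Λ ^ (-b) ≤ 1 / 20 := by
      rw [hnb]
      exact one_div_le_one_div_of_le (by norm_num) hb20
    have hnb21 : Λ ^ (-b2) ≤ 1 / 20 := by
      rw [hnb2]
      exact one_div_le_one_div_of_le (by norm_num) (hb20.trans hbb)
    set θ : ℝ := Λ ^ (-b) / 8 with hθ
    have hθ0 : 0 < θ := by positivity
    have hR3 : (3 : ℝ) ≤ Λ ^ (3 : ℕ) := by nlinarith [sq_nonneg Λ]
    have hexp : Real.exp Λ ≥ 16 := by
      have h5 := Real.quadratic_le_exp_of_nonneg hΛ0.le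
      nlinarith
    have hRθ : Λ ^ (3 : ℕ) / θ ≤ Λ ^ (5 : ℕ) := by
      have h5 : Λ ^ (3 : ℕ) / θ = 8 * Λ ^ (3 : ℕ) * Λ ^ b := by
        rw [hθ, hnb]
        field_simp
      rw [h5]
      calc 8 * Λ ^ (3 : ℕ) * Λ ^ b ≤ Λ * Λ ^ (3 : ℕ) * Λ := by gcongr
        _ = Λ ^ 5 := by ring
    have hRθ0 : 0 < Λ ^ (3 : ℕ) / θ := by positivity
    have hRθ4 : 4 ≤ Λ ^ (3 : ℕ) / θ := by
      rw [le_div_iff₀ hθ0]
      linarith
    have hlogRθ : Real.log (Λ ^ (3 : ℕ) / θ) ≤ 5 * Real.log Λ := by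
      have h5 := Real.log_le_log hRθ0 hRθ
      rw [Real.log_pow] at h5
      exact_mod_cast h5
    have hlogRθ0 : 0 < Real.log (Λ ^ (3 : ℕ) / θ) := Real.log_pos (by linarith)
    set w : ℝ := Λ ^ (-b2) with hw
    have hwle : w ≤ θ / (CI * Real.log (Λ ^ (3 : ℕ) / θ)) := by
      rw [le_div_iff₀ (by positivity)]
      have h5 : CI * Real.log (Λ ^ (3 : ℕ) / θ) ≤ CI * (5 * (1 / (40 * CI) * Λ ^ (b2 - b))) := by
        apply mul_le_mul_of_nonneg_left _ (by linarith)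
        exact hlogRθ.trans (mul_le_mul_of_nonneg_left hgood.ci (by norm_num))
      have h6 : CI * (5 * (1 / (40 * CI) * Λ ^ (b2 - b))) = 1 / 8 * Λ ^ (b2 - b) := by
        field_simp
        norm_num
      rw [h6] at h5
      calc w * (CI * Real.log (Λ ^ (3 : ℕ) / θ)) ≤ w * (1 / 8 * Λ ^ (b2 - b)) :=
            mul_le_mul_of_nonneg_left h5 hnb20.le
        _ = 1 / 8 * (Λ ^ (-b2) * Λ ^ (b2 - b)) := by rw [hw]; ring
        _ = θ := by
          rw [← Real.rpow_add hΛ0, hθ]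
          have : -b2 + (b2 - b) = -b := by ring
          rw [this]
          ring
    set R : ℝ := (Λ ^ (3 : ℕ) / θ) ^ CI with hR
    have hR4 : 4 ≤ R := by
      have h5 : (Λ ^ (3 : ℕ) / θ) ^ (1 : ℝ) ≤ R :=
        Real.rpow_le_rpow_of_exponent_le (by linarith) hCI
      rw [Real.rpow_one] at h5
      linarith
    have hRle : R ≤ Λ ^ (5 * CI) := by
      have h5 : R ≤ (Λ ^ (5 : ℕ)) ^ CI := Real.rpow_le_rpow hRθ0.le hRθ (by linarith)
      refine h5.trans (le_of_eq ?_)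
      rw [← Real.rpow_natCast, ← Real.rpow_mul hΛ0.le]
      push_cast
      rfl
    -- the bound for the inverse
    have hinv : ∀ s : ℂ, 1 - w ≤ s.re → s.re ≤ 3 → |s.im| ≤ Real.exp Λ / 4 →
        L1 s ≠ 0 ∧ ‖(L1 s)⁻¹‖ ≤ R := by
      intro s hs1 hs2 hs3
      rcases le_or_gt s.re 2 with hs4 | hs4
      · have h5 := hI (hk χ k) hU s.im θ (Λ ^ (3 : ℕ)) L1 L2 hθ0 (by linarith) hR3
          (d1.mono fun z hz => by
            show 9 / 10 < z.re
            have := hz.1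
            linarith)
          (fun z hz _ => e1 z hz)
          (fun z hz1 hz2 hz3 => g1 z (by linarith) hz2 (by
            have h6 : |z.im| ≤ |z.im - s.im| + |s.im| := by
              have : z.im = (z.im - s.im) + s.im := by ring
              nth_rewrite 1 [this]
              exact abs_add_le _ _
            linarith))
          (d2.mono fun z hz => by
            show 9 / 10 < z.re
            have := hz.1
            linarith)
          (fun z hz _ => e2 z hz)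
          (fun z hz1 hz2 hz3 => g2 z (by linarith) hz2 (by
            have h6 : |z.im| ≤ |z.im - 2 * s.im| + |2 * s.im| := by
              have : z.im = (z.im - 2 * s.im) + 2 * s.im := by ring
              nth_rewrite 1 [this]
              exact abs_add_le _ _
            rw [abs_mul, abs_two] at h6
            linarith)) s.re (by linarith) hs4
        exact h5
      · have h5 : 1 < s.re := by linarith
        obtain ⟨i1, i2⟩ := inv_le hU h5
        rw [e1 s h5]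
        refine ⟨i1, i2.trans (le_trans ?_ hR4)⟩
        have h6 : 1 / (s.re - 1) ≤ 1 := by
          rw [div_le_one (by linarith)]
          linarith
        have h7 : 0 < 1 / (s.re - 1) := by
          apply div_pos one_pos
          linarith
        nlinarith
    have hu1 : 1 ≤ u := by
      by_contra hcon
      push Not at hcon
      -- `Λ^(A+1) ≤ exp (u/2)`
      have h5 := hgood.t2
      have h6 : Λ ≤ Λ ^ (A + 1 : ℝ) := by
        have := Real.rpow_le_rpow_of_exponent_le hΛ1 (show (1 : ℝ) ≤ A + 1 by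
          have : (0 : ℝ) ≤ A := Nat.cast_nonneg A
          linarith)
        rwa [Real.rpow_one] at this
      have h7 : 1 / (2 * m) * Λ ^ (1 : ℝ) = u / 2 := by
        rw [Real.rpow_one, hΛ]
        field_simp
      rw [h7] at h5
      have h8 : Real.exp (u / 2) ≤ Real.exp 1 := Real.exp_le_exp.2 (by linarith)
      have := Real.exp_one_lt_d9
      linarith
    set δ : ℝ := 1 / u ^ (A + 2) with hδ
    have hδ0 : 0 < δ := by positivity
    have hδ1 : δ ≤ 1 := by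
      rw [hδ, div_le_one (by positivity)]
      exact one_le_pow₀ hu1
    have hfin := hP (hk χ k) hU (Real.exp Λ / 4) w R Y δ L1 (by linarith) hnb20 hnb21 (by linarith) hY
      hδ0 hδ1 (d1.mono fun z hz => by
        show 9 / 10 < z.re
        have : 1 - 2 * w < z.re := hz
        linarith) e1 hinv
    rw [sum_bm, norm_mul]
    have hY0 : 0 < Y := by linarith
    have hupow : ∀ N : ℕ, u ^ N ≤ Λ ^ N := fun N => pow_le_pow_left₀ hlogY0.le huΛ N
    -- the four terms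
    have T1 : δ * Y * u ≤ Y / u ^ A := by
      have : δ * Y * u = Y / u ^ (A + 1) := by
        rw [hδ]
        field_simp
        ring
      rw [this]
      exact div_le_div_of_nonneg_left hY0.le (by positivity) (pow_le_pow_right₀ hu1 (by omega))
    have T2 : Real.sqrt Y * u ≤ Y / u ^ A := by
      rw [le_div_iff₀ (by positivity)]
      have h5 : u ^ (A + 1) ≤ Real.exp (u / 2) := by
        have h6 := hgood.t2
        have h7 : 1 / (2 * m) * Λ ^ (1 : ℝ) = u / 2 := by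
          rw [Real.rpow_one, hΛ]
          field_simp
        rw [h7] at h6
        refine (hupow (A + 1)).trans (le_trans (le_of_eq ?_) h6)
        rw [← Real.rpow_natCast]
        push_cast
        rfl
      have h6 : Real.sqrt Y = Real.exp (u / 2) := by
        rw [hYe, Real.exp_half]
      have h7 : Real.exp (u / 2) * Real.exp (u / 2) = Y := by
        rw [← Real.exp_add, hYe]
        congr 1
        ring
      rw [h6]
      calc Real.exp (u / 2) * u * u ^ A = Real.exp (u / 2) * u ^ (A + 1) := by ring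
        _ ≤ Real.exp (u / 2) * Real.exp (u / 2) :=
          mul_le_mul_of_nonneg_left h5 (Real.exp_pos _).le
        _ = Y := h7
    have hdiv : Y / δ = Y * u ^ (A + 2) := by
      rw [hδ]
      field_simp
    have T3 : Y / δ * (R * Y ^ (-w)) ≤ Y / u ^ A := by
      rw [hdiv, le_div_iff₀ (by positivity)]
      have h5 : Y ^ (-w) = (Real.exp (1 / m * Λ ^ (1 - b2)))⁻¹ := by
        rw [Real.rpow_def_of_pos hY0, ← Real.exp_neg]
        congr 1
        have h6 : Λ ^ (1 - b2) = Λ * w := by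
          rw [hw, sub_eq_add_neg, Real.rpow_add hΛ0, Real.rpow_one]
        rw [h6, ← hu]
        have h7 : 1 / m * (Λ * w) = u * w := by
          rw [hΛ]
          field_simp
        rw [h7]
        ring
      have h6 : u ^ (2 * A + 2) * R ≤ Real.exp (1 / m * Λ ^ (1 - b2)) := by
        refine le_trans ?_ hgood.t3
        calc u ^ (2 * A + 2) * R ≤ Λ ^ (2 * A + 2) * Λ ^ (5 * CI) :=
              mul_le_mul (hupow _) hRle (by linarith) (by positivity)
          _ = Λ ^ (2 * A + 2 + 5 * CI : ℝ) := by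
            rw [Real.rpow_add hΛ0 (2 * A + 2 : ℝ), ← Real.rpow_natCast]
            push_cast
            rfl
      rw [h5]
      have h7 : Y * u ^ (A + 2) * (R * (Real.exp (1 / m * Λ ^ (1 - b2)))⁻¹) * u ^ A =
          Y * ((u ^ (2 * A + 2) * R) / Real.exp (1 / m * Λ ^ (1 - b2))) := by
        rw [div_eq_mul_inv]
        ring
      rw [h7]
      have h8 : (u ^ (2 * A + 2) * R) / Real.exp (1 / m * Λ ^ (1 - b2)) ≤ 1 :=
        (div_le_one (Real.exp_pos _)).2 h6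
      nlinarith
    have T4 : Y / δ * ((u ^ 2 + R) / (Real.exp Λ / 4)) ≤ Y / u ^ A := by
      rw [hdiv, le_div_iff₀ (by positivity)]
      have h6 : 4 * u ^ (2 * A + 2) * (u ^ 2 + R) ≤ Real.exp Λ := by
        have h9 := hgood.t4
        rw [one_mul, Real.rpow_one] at h9
        refine le_trans ?_ h9
        have h10 : u ^ 2 ≤ Λ ^ (5 * CI) := by
          refine (hupow 2).trans ?_
          rw [← Real.rpow_natCast]
          apply Real.rpow_le_rpow_of_exponent_le hΛ1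
          push_cast
          linarith
        have h11 : 0 ≤ Λ ^ (5 * CI) := Real.rpow_nonneg hΛ0.le _
        calc 4 * u ^ (2 * A + 2) * (u ^ 2 + R) ≤
            4 * Λ ^ (2 * A + 2) * (Λ ^ (5 * CI) + Λ ^ (5 * CI)) := by
              apply mul_le_mul _ (by linarith) (by positivity) (by positivity)
              exact mul_le_mul_of_nonneg_left (hupow _) (by norm_num)
          _ = 8 * (Λ ^ (2 * A + 2) * Λ ^ (5 * CI)) := by ring
          _ ≤ Λ * (Λ ^ (2 * A + 2) * Λ ^ (5 * CI)) := by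
            apply mul_le_mul_of_nonneg_right hΛ8
            positivity
          _ = Λ ^ (2 * A + 3) * Λ ^ (5 * CI) := by ring
          _ = Λ ^ (2 * A + 3 + 5 * CI : ℝ) := by
            rw [Real.rpow_add hΛ0 (2 * A + 3 : ℝ), ← Real.rpow_natCast]
            push_cast
            rfl
      have h7 : Y * u ^ (A + 2) * ((u ^ 2 + R) / (Real.exp Λ / 4)) * u ^ A =
          Y * ((4 * u ^ (2 * A + 2) * (u ^ 2 + R)) / Real.exp Λ) := by
        field_simp
        ring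
      rw [h7]
      have h8 : (4 * u ^ (2 * A + 2) * (u ^ 2 + R)) / Real.exp Λ ≤ 1 :=
        (div_le_one (Real.exp_pos _)).2 h6
      nlinarith
    have h44 : ‖(4 : ℂ)‖ = 4 := by norm_num
    rw [h44]
    have hsum : δ * Y * u + Real.sqrt Y * u + Y / δ * (R * Y ^ (-w) + (u ^ 2 + R) / (Real.exp Λ / 4)) ≤
        4 * (Y / u ^ A) := by
      rw [mul_add]
      linarith
    calc 4 * ‖∑ n ∈ Icc 1 ⌊Y⌋₊, bm (hk χ k) n‖ ≤ 4 * (CP * (4 * (Y / u ^ A))) := by
          apply mul_le_mul_of_nonneg_left _ (by norm_num)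
          exact hfin.trans (mul_le_mul_of_nonneg_left hsum (by linarith))
      _ = 16 * CP * Y / u ^ A := by ring
  -- all Y
  set Y₁ : ℝ := max 1 (Λ₀ / m) with hY₁
  refine ⟨16 * CP + 9 * Y₁ ^ A, by positivity, ?_⟩
  intro Y q χ k hY hq hqL H hk0 hkD
  have hlogY0 : 0 < Real.log Y := Real.log_pos (by linarith)
  have hpow : 0 < (Real.log Y) ^ A := by positivity
  rcases le_or_gt Λ₀ (m * Real.log Y) with hc | hc
  · refine (main Y q χ k hY hc hq hqL H hk0 hkD).trans ?_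
    apply div_le_div_of_nonneg_right _ hpow.le
    apply mul_le_mul_of_nonneg_right _ (by linarith)
    have : 0 ≤ Y₁ ^ A := by positivity
    linarith
  · refine (trivial_bd H k (by linarith)).trans ?_
    rw [le_div_iff₀ hpow]
    have h5 : Real.log Y ≤ Y₁ := by
      refine le_trans ?_ (le_max_right _ _)
      rw [le_div_iff₀ (by linarith)]
      linarith
    have h6 : (Real.log Y) ^ A ≤ Y₁ ^ A := pow_le_pow_left₀ hlogY0.le h5 A
    have h7 : 9 * Y * (Real.log Y) ^ A ≤ 9 * Y * Y₁ ^ A :=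
      mul_le_mul_of_nonneg_left h6 (by linarith)
    have h8 : 0 ≤ 16 * CP * Y := by positivity
    nlinarith

end Pool.Agent.N487.GN
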